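import Pool.Agent.Q282.UV.Sum

/-!
# The sums of the traces of the products with a fixed variety
-/

set_option autoImplicit false
set_option linter.unusedSectionVars false

namespace Q282UV

open Finset MvPolynomial
open Q282GH (zeros Through)
open Q282GP (av gen fam oc tt vv oser kun coh)
open Q282GS (co trace_gen)
open Q282AE (Gen idl Box at' ev tau Good member zeros_member bet)
open Q282OR (XO kun_le')

/-- the eigenvalues on the cohomology of a product -/
noncomputable def prd (H H' : ℕ → Multiset ℂ) (j : ℕ) : Multiset ℂ :=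
  ∑ x ∈ antidiagonal j, (H x.1 ×ˢ H' x.2).map (fun z => z.1 * z.2)

lemma prd_sum (H H' : ℕ → Multiset ℂ) (j : ℕ) : (prd H H' j).sum = ∑ b ∈ range (j + 1), (H b).sum * (H' (j - b)).sum := by
  unfold prd
  rw [← Nat.sum_antidiagonal_eq_sum_range_succ (fun a b => (H a).sum * (H' b).sum)]
  have h : ∀ (s : Finset (ℕ × ℕ)) (g : ℕ × ℕ → Multiset ℂ), (∑ x ∈ s, g x).sum = ∑ x ∈ s, (g x).sum := by
    intro s g
    exact map_sum (Multiset.sumAddMonoidHom : Multiset ℂ →+ ℂ) g s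
  rw [h]
  exact sum_congr rfl fun x _ => Q282GP.prod_sum _ _

variable {k : Type} [Field k] {M n : ℕ} {A : Type} {ι : A → Type} [∀ a, Fintype (ι a)]

variable (Fm : ℕ → Type) [∀ m, Field (Fm m)] [∀ m, Algebra k (Fm m)]

/-- `α m x` is a multiset of `b` numbers of absolute value at most `q^(m D / 2)` that satisfy the trace formula for the number of
the points with values in `Fm m` of the fibre over `x`, for all `m ≥ 1` and all points `x` of the open set -/
structure IsFrob (G : Set (MvPolynomial (Fin M) k)) (w : ℕ → ℕ) (D r b : ℕ) (E : Set (MvPolynomial (Fin (n + 1)) (MvPolynomial (Fin M) k)))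
    (f : (a : A) → ι a → MvPolynomial (Fin (n + 1)) (MvPolynomial (Fin M) k))
    (Δ : MvPolynomial (Σ a, ι a) (MvPolynomial (Fin M) k)) (c : (Σ a, ι a) → MvPolynomial (Fin M) k)
    (α : (m : ℕ) → (Fin M → Fm m) → Multiset ℂ) : Prop where
  card : ∀ m, 1 ≤ m → ∀ x : Fin M → Fm m, On G x → Good Δ c x → (α m x).card = b
  norm : ∀ m, 1 ≤ m → ∀ x : Fin M → Fm m, On G x → Good Δ c x → ∀ a ∈ α m x, ‖a‖ ≤ Real.sqrt (Nat.card (Fm m)) ^ D
  trace : ∀ m, 1 ≤ m → ∀ x : Fin M → Fm m, On G x → Good Δ c x →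
    (zeros (ev x) (member E f c) : ℂ) = ((tt w D r (Nat.card (Fm m)) : ℝ) : ℂ) + (-1) ^ D * (α m x).sum

/-- the sum over the points with values in `Fm m` of the open set of the traces on the cohomology in degree `n'` of the product of the
`ν`-th power of the fibre with the fixed variety -/
noncomputable def traceSum (G : Set (MvPolynomial (Fin M) k)) (w : ℕ → ℕ) (D r ν n' : ℕ) (Δ : MvPolynomial (Σ a, ι a) (MvPolynomial (Fin M) k))
    (c : (Σ a, ι a) → MvPolynomial (Fin M) k) (α : (m : ℕ) → (Fin M → Fm m) → Multiset ℂ)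
    (η : (m : ℕ) → (Fin M → Fm m) → ℕ → Multiset ℂ) (m : ℕ) : ℂ :=
  ∑ᶠ x : {x : Fin M → Fm m // On G x ∧ Good Δ c x}, (prd (kun (coh w D r (Nat.card (Fm m)) (α m x.1)) ν) (η m x.1) n').sum

variable [Fintype A] [DecidableEq A] [∀ a, DecidableEq (ι a)] [Fintype k] {Fm} [∀ m, Fintype (Fm m)]

/-- the normalised traces of the fixed variety -/
noncomputable def tU (η : (m : ℕ) → (Fin M → Fm m) → ℕ → Multiset ℂ) (m : ℕ) (j : ℕ) (x : Fin M → Fm m) : ℂ :=
  (η m x j).sum / ((Real.sqrt (Nat.card (Fm m)) ^ j : ℝ) : ℂ)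

open Classical in
/-- **The sums of the traces.** -/
theorem link (G : Set (MvPolynomial (Fin M) k)) (w : ℕ → ℕ) (D r b ν n' : ℕ) (ε : ℕ) (hε : 1 ≤ ε) (p : Fin ε → MvPolynomial (Fin M) k) (C₃ : ℕ)
    (E : Set (MvPolynomial (Fin (n + 1)) (MvPolynomial (Fin M) k)))
    (f : (a : A) → ι a → MvPolynomial (Fin (n + 1)) (MvPolynomial (Fin M) k)) (Δ : MvPolynomial (Σ a, ι a) (MvPolynomial (Fin M) k))
    {N : ℕ} (c : Box k M N (Σ a, ι a)) (α : (m : ℕ) → (Fin M → Fm m) → Multiset ℂ)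
    (hα : IsFrob Fm G w D r b E f Δ (fun s => (c s : MvPolynomial (Fin M) k)) α) (η : (m : ℕ) → (Fin M → Fm m) → ℕ → Multiset ℂ) (β : ℝ) (hβ : 0 ≤ β)
    (m : ℕ) (hm : 1 ≤ m) (hη : ∀ j ≤ n', ∀ x : Fin M → Fm m, On G x → map (ev x) Δ ≠ 0 → ‖tU η m j x‖ ≤ β)
    (hfib : ∀ y : Fin ε → Fm m, Nat.card {x : Fin M → Fm m // On G x ∧ ∀ i, aeval x (p i) = y i} ≤ C₃) :
    ‖traceSum Fm G w D r ν n' Δ (fun s => (c s : MvPolynomial (Fin M) k)) α η m -
      ((Real.sqrt (Nat.card (Fm m)) ^ n' : ℝ) : ℂ) * ∑ x ∈ univ.filter (fun x : Fin M → Fm m => On G x ∧ Gen k x), GG w D r ν n' E f Δ (tU η m) x (at' x c)‖ ≤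
      Real.sqrt (Nat.card (Fm m)) ^ n' * (2 * C₃ * (((Nat.card (Fm m) : ℝ) ^ ε / Real.sqrt (Nat.card (Fm m)))) *
        ((∑ b' ∈ range (n' + 1), (bet w D r b ν b' : ℝ)) * β)) := by
  obtain ⟨q, hq⟩ : ∃ q : ℕ, q = Nat.card (Fm m) := ⟨_, rfl⟩
  have hq1 : (1 : ℝ) ≤ q := by
    rw [hq, Nat.card_eq_fintype_card]
    exact Q282AE.card_one
  have hq0 : (0 : ℝ) < q := by linarith
  obtain ⟨s, hs⟩ : ∃ s : ℝ, s = Real.sqrt q := ⟨_, rfl⟩
  have hs0 : 0 < s := by
    rw [hs]
    exact Real.sqrt_pos.2 hq0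
  have hsc : (s : ℂ) ≠ 0 := by exact_mod_cast hs0.ne'
  obtain ⟨Bt, hBt⟩ : ∃ Bt : ℝ, Bt = ∑ b' ∈ range (n' + 1), (bet w D r b ν b' : ℝ) := ⟨_, rfl⟩
  have hBt0 : 0 ≤ Bt := by
    rw [hBt]
    positivity
  -- the traces at one point
  have hkun : ∀ x : Fin M → Fm m, On G x → Good Δ (fun s => (c s : MvPolynomial (Fin M) k)) x → ∀ b' : ℕ,
      (kun (coh w D r q (α m x)) ν b').sum = (((-s) ^ b' * XO w D r ν b' E f Δ x (at' x c) : ℝ) : ℂ) := by
    intro x hxG hx b'
    have h2 := hα.trace m hm x hxG hx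
    rw [← zeros_member, ← hq] at h2
    have h3 : (α m x).sum = (-1) ^ D * (((tau w D r E f x (at' x c) : ℝ) : ℂ) * (s : ℂ) ^ D) := by
      have h4 : ((tau w D r E f x (at' x c) : ℝ) : ℂ) * (s : ℂ) ^ D = (-1) ^ D * (α m x).sum := by
        unfold tau
        rw [← hq, ← hs]
        push_cast
        rw [div_mul_cancel₀ _ (pow_ne_zero _ hsc)]
        have h5 : (zeros (eval₂Hom (ev x) (at' x c)) (fam E f) : ℂ) = ((tt w D r (q : ℝ) : ℝ) : ℂ) + (-1) ^ D * (α m x).sum := h2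
        rw [h5]
        ring
      rw [h4, ← mul_assoc, ← mul_pow]
      norm_num
    have h4 := trace_gen w D r q (α m x) (s : ℂ) _ (by
      rw [← Complex.ofReal_pow, hs, Real.sq_sqrt hq0.le]
      simp) h3 ν b'
    rw [h4]
    have hG : ¬ eval₂ (ev x) (at' x c) Δ = 0 := hx
    unfold XO
    rw [if_neg hG]
    push_cast
    rfl
  have hXO : ∀ x : Fin M → Fm m, On G x → ∀ b' : ℕ, |XO w D r ν b' E f Δ x (at' x c)| ≤ bet w D r b ν b' := by
    intro x hxG b'
    by_cases hx : Good Δ (fun s => (c s : MvPolynomial (Fin M) k)) x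
    · have h1 := hkun x hxG hx b'
      have h2 := kun_le' w D r b ν b' q (α m x) (hα.card m hm x hxG hx) (by rw [hq]; exact hα.norm m hm x hxG hx)
      rw [h1, Complex.norm_real, Real.norm_eq_abs, abs_mul, abs_pow, abs_neg, abs_of_nonneg hs0.le, mul_comm, ← hs] at h2
      exact le_of_mul_le_mul_right h2 (pow_pos hs0 _)
    · have hG : eval₂ (ev x) (at' x c) Δ = 0 := by
        by_contra h0
        exact hx h0
      unfold XO
      rw [if_pos hG, abs_zero]
      exact Nat.cast_nonneg _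
  obtain ⟨g, hg⟩ : ∃ g : (Fin M → Fm m) → ℂ, g = fun x => if Good Δ (fun s => (c s : MvPolynomial (Fin M) k)) x then
    (prd (kun (coh w D r q (α m x)) ν) (η m x) n').sum else 0 := ⟨_, rfl⟩
  have h1 : traceSum Fm G w D r ν n' Δ (fun s => (c s : MvPolynomial (Fin M) k)) α η m = ∑ x ∈ univ.filter (fun x : Fin M → Fm m => On G x), g x := by
    unfold traceSum
    rw [finsum_eq_sum_of_fintype, ← hq, hg, ← sum_filter, filter_filter]
    exact (Finset.sum_subtype (univ.filter fun x : Fin M → Fm m => On G x ∧ Good Δ (fun s => (c s : MvPolynomial (Fin M) k)) x)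
      (fun x => by rw [mem_filter]; simp) (fun x => (prd (kun (coh w D r q (α m x)) ν) (η m x) n').sum)).symm
  have hgen : ∀ x : Fin M → Fm m, On G x → g x = ((s ^ n' : ℝ) : ℂ) * GG w D r ν n' E f Δ (tU η m) x (at' x c) := by
    intro x hxG
    rw [hg]
    simp only
    split_ifs with hx
    · rw [prd_sum]
      unfold GG
      rw [mul_sum]
      refine sum_congr rfl fun b' hb' => ?_
      rw [mem_range] at hb'
      rw [hkun x hxG hx]
      unfold tU
      rw [← hq, ← hs]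
      have h5 : s ^ n' = s ^ b' * s ^ (n' - b') := by
        rw [← pow_add]
        congr 1
        omega
      rw [h5]
      push_cast
      have h6 : (s : ℂ) ^ (n' - b') ≠ 0 := pow_ne_zero _ hsc
      field_simp
      rw [neg_pow]
      ring
    · have hG : eval₂ (ev x) (at' x c) Δ = 0 := by
        by_contra h0
        exact hx h0
      unfold GG
      rw [sum_eq_zero, mul_zero]
      intro b' _
      unfold XO
      rw [if_pos hG, Complex.ofReal_zero, zero_mul]
  have hgb : ∀ x : Fin M → Fm m, On G x → ‖g x‖ ≤ s ^ n' * (Bt * β) := by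
    intro x hxG
    rw [hgen x hxG, norm_mul, Complex.norm_real, Real.norm_of_nonneg (by positivity)]
    refine mul_le_mul_of_nonneg_left ?_ (by positivity)
    by_cases hΔ : map (ev x) Δ = 0
    · rw [GG_zero hΔ, norm_zero]
      positivity
    · unfold GG
      rw [hBt, sum_mul]
      refine (norm_sum_le _ _).trans (sum_le_sum fun b' hb' => ?_)
      rw [norm_mul, norm_mul, norm_pow, norm_neg, norm_one, one_pow, one_mul, Complex.norm_real, Real.norm_eq_abs]
      exact mul_le_mul (hXO x hxG b') (hη _ (by omega) x hxG hΔ) (norm_nonneg _) (Nat.cast_nonneg _)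
  have h2 : ((Real.sqrt (Nat.card (Fm m)) ^ n' : ℝ) : ℂ) * ∑ x ∈ univ.filter (fun x : Fin M → Fm m => On G x ∧ Gen k x), GG w D r ν n' E f Δ (tU η m) x (at' x c) =
      ∑ x ∈ univ.filter (fun x : Fin M → Fm m => On G x ∧ Gen k x), g x := by
    rw [mul_sum, ← hq, ← hs]
    exact sum_congr rfl fun x hx => (hgen x (mem_filter.1 hx).2.1).symm
  have h3 : ∑ x ∈ univ.filter (fun x : Fin M → Fm m => On G x), g x - ∑ x ∈ univ.filter (fun x : Fin M → Fm m => On G x ∧ Gen k x), g x =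
      ∑ x ∈ univ.filter (fun x : Fin M → Fm m => On G x ∧ ¬ Gen k x), g x := by
    rw [sub_eq_iff_eq_add, ← filter_filter, ← filter_filter, add_comm]
    exact (sum_filter_add_sum_filter_not _ _ _).symm
  rw [h1, h2, h3, ← hBt, ← hq, ← hs]
  have h4 : ∀ x ∈ univ.filter (fun x : Fin M → Fm m => On G x ∧ ¬ Gen k x), ‖g x‖ ≤ s ^ n' * (Bt * β) := fun x hx => hgb x (mem_filter.1 hx).2.1
  refine (norm_sum_le _ _).trans ((sum_le_sum h4).trans ?_)
  rw [sum_const, nsmul_eq_mul]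
  have h5 := card_on_not_gen hε G p C₃ hfib
  rw [← Nat.card_eq_fintype_card, ← hq, ← hs] at h5
  calc (((univ.filter (fun x : Fin M → Fm m => On G x ∧ ¬ Gen k x)).card : ℕ) : ℝ) * (s ^ n' * (Bt * β)) ≤
      (2 * C₃ * ((q : ℝ) ^ ε / s)) * (s ^ n' * (Bt * β)) := mul_le_mul_of_nonneg_right h5 (by positivity)
    _ = _ := by ring

end Q282UV
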