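import Pool.Agent.Q282.OR.Odd

/-!
# The mean values of the traces on the cohomology of all degrees of the powers
-/

set_option autoImplicit false
set_option linter.unusedSectionVars false

namespace Q282UV

open Finset MvPolynomial
open Q282MM (gm)
open Q282GH (zeros Through)
open Q282GP (av av_add av_sub av_smul av_sum av_const av_nonneg av_mono abs_av gen fam oc tt vv oser kun coh TT cc mid expand)
open Q282GS (co co_even oser_odd)
open Q282AE (Gen idl Box at' ev tau)
open Q282OR (XO)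

/-- the coefficients of the mean values -/
noncomputable def TE (w : ℕ → ℕ) (D r ν b l : ℕ) : ℕ := if Even b then TT w D r ν (b / 2) l else 0

lemma co_zero (w : ℕ → ℕ) (D r ν b κ : ℕ) (hD : Even D) (hb : Odd b) : co w D r ν b κ = 0 := by
  unfold co
  split_ifs with h
  · rw [oser_odd, mul_zero]
    obtain ⟨m, hm⟩ := hb
    obtain ⟨l, hl⟩ := hD
    have h1 : D * κ = 2 * (l * κ) := by
      rw [hl]
      ring
    exact ⟨m - l * κ, by omega⟩
  · rw [mul_zero]

variable {k : Type} [Field k] {M n : ℕ} {A : Type} [Fintype A] [DecidableEq A] {ι : A → Type} [∀ a, Fintype (ι a)] [∀ a, DecidableEq (ι a)]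

open Classical in
/-- **The mean values.** -/
theorem means (D : ℕ) (hD : 1 ≤ D) (r : ℕ) (hr : 1 ≤ r) (hA : Fintype.card A = r) (w : ℕ → ℕ) (hw : w (D + r) = 1) (C₀ C₁ : ℝ)
    (ν : ℕ) (hν : 1 ≤ ν) (n' : ℕ) {J : Type} {h : J → MvPolynomial (Fin (n + 1)) (MvPolynomial (Fin M) k)} {e : J → ℕ} {d : A → ℕ}
    {f : (a : A) → ι a → MvPolynomial (Fin (n + 1)) (MvPolynomial (Fin M) k)} (hh : ∀ j, (h j).IsHomogeneous (e j))
    (hd : ∀ j a, e j + 2 * ν ≤ d a + 1) (hf : ∀ a, Through h (d a) (f a)) (E : Set (MvPolynomial (Fin (n + 1)) (MvPolynomial (Fin M) k)))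
    (Δ : MvPolynomial (Σ a, ι a) (MvPolynomial (Fin M) k)) :
    ∃ K : ℝ, 0 ≤ K ∧ ∀ {F : Type} [Field F] [Fintype F] [Algebra k F] (x : Fin M → F), Gen k x → map (ev x) Δ ≠ 0 →
      |(zeros (ev x) E : ℝ) - ∑ j ∈ range (D + r + 1), w j * (Nat.card F : ℝ) ^ j| ≤ C₀ * Real.sqrt (Nat.card F) ^ (2 * r + D - 1) →
      (zeros (ev x) (E ∪ Set.range h) : ℝ) ≤ C₁ * (Nat.card F : ℝ) ^ (D / 2) →
      ∀ b ≤ n', |av (XO w D r ν b E f Δ x) - ∑ l ∈ range (ν + 1), (TE w D r ν b l : ℝ) * ((zeros (ev x) (E ∪ Set.range h) : ℝ) / Real.sqrt (Nat.card F) ^ D) ^ l| ≤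
        K / Real.sqrt (Nat.card F) ∧ av (fun u => XO w D r ν b E f Δ x u ^ 2) ≤ K := by
  obtain ⟨K, hK0, hK⟩ := Q282AE.good_mom D r hD hr w hw |C₀| |C₁| Δ.totalDegree (abs_nonneg _) (abs_nonneg _) (Nat.cast_nonneg _) ν hν
  obtain ⟨G, hG⟩ : ∃ G : ℝ, G = ∑ κ ∈ range (ν + 1), ∑ l ∈ range (κ + 1), (κ.choose l : ℝ) * gm l * (|C₁| * (1 + |C₁|) ^ κ) := ⟨_, rfl⟩
  obtain ⟨c₁, hc₁⟩ : ∃ c₁ : ℝ, c₁ = ∑ b ∈ range (n' + 1), ∑ κ ∈ range (ν + 1), (co w D r ν b κ : ℝ) := ⟨_, rfl⟩
  obtain ⟨c₂, hc₂⟩ : ∃ c₂ : ℝ, c₂ = ∑ b ∈ range (n' + 1), ∑ κ ∈ range (ν + 1), (co w D r ν b κ : ℝ) ^ 2 := ⟨_, rfl⟩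
  have hG0 : 0 ≤ G := by
    rw [hG]
    positivity
  have hc₁0 : 0 ≤ c₁ := by
    rw [hc₁]
    positivity
  have hc₂0 : 0 ≤ c₂ := by
    rw [hc₂]
    positivity
  refine ⟨c₁ * (K + G) + ((ν + 1 : ℕ) : ℝ) * (c₂ * K), by positivity, ?_⟩
  intro F _ _ _ x hx hΔ hW hZ b hb
  rw [Nat.card_eq_fintype_card] at *
  have hp0 : (0 : ℝ) < Fintype.card F := Q282AE.card_pos
  have hp1 : (1 : ℝ) ≤ Fintype.card F := Q282AE.card_one
  obtain ⟨s, hs⟩ : ∃ s : ℝ, s = Real.sqrt (Fintype.card F) := ⟨_, rfl⟩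
  have hs1 : 1 ≤ s := by
    rw [hs]
    exact Real.one_le_sqrt.2 hp1
  have hs0 : 0 < s := by linarith
  have hsp : (Fintype.card F : ℝ) = s ^ 2 := by
    rw [hs, Real.sq_sqrt hp0.le]
  have hbad : ((univ.filter fun u : (Σ a, ι a) → F => eval₂ (ev x) u Δ = 0).card : ℝ) ≤
      (Δ.totalDegree : ℝ) * (Fintype.card F : ℝ) ^ Fintype.card (Σ a, ι a) / Fintype.card F := by
    have h1 := Q282GH.sz (map (ev x) Δ) hΔ
    rw [le_div_iff₀ hp0]
    rw [Nat.card_eq_fintype_card, Fintype.card_subtype] at h1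
    have h2 : (univ.filter fun u : (Σ a, ι a) → F => eval u (map (ev x) Δ) = 0) = univ.filter fun u => eval₂ (ev x) u Δ = 0 := by
      refine filter_congr fun u _ => ?_
      rw [MvPolynomial.eval_map]
    rw [h2] at h1
    refine h1.trans (mul_le_mul_of_nonneg_right ?_ (by positivity))
    have h3 : (map (ev x) Δ).totalDegree ≤ Δ.totalDegree := by
      unfold totalDegree
      exact Finset.sup_mono (support_map_subset _ _)
    exact_mod_cast h3
  have hZ' : (zeros (ev x) (E ∪ Set.range h) : ℝ) ≤ |C₁| * s ^ (2 * (D / 2)) := by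
    refine hZ.trans ?_
    rw [hsp, ← pow_mul]
    exact mul_le_mul_of_nonneg_right (le_abs_self _) (by positivity)
  obtain ⟨z, hz⟩ : ∃ z : ℝ, z = (zeros (ev x) (E ∪ Set.range h) : ℝ) / s ^ D := ⟨_, rfl⟩
  have hz0 : 0 ≤ z := by
    rw [hz]
    positivity
  have hmom : ∀ κ ≤ ν, |av (fun u => if eval₂ (ev x) u Δ = 0 then 0 else tau w D r E f x u ^ κ) -
        ∑ l ∈ range (κ + 1), (κ.choose l : ℝ) * gm l * (z + vv w D r) ^ (κ - l)| ≤ K / s ∧
      av (fun u => (tau w D r E f x u ^ κ) ^ 2) ≤ K := by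
    intro κ hκ
    have h1 := hK (ev x) (Q282AE.ev_surj hx) hA hh hd hf E (fun u => eval₂ (ev x) u Δ = 0) hbad
      (hW.trans (mul_le_mul_of_nonneg_right (le_abs_self _) (by positivity)))
      (hZ'.trans (by
        rw [← hs]
        exact mul_le_mul_of_nonneg_left (pow_le_pow_right₀ hs1 (by omega)) (abs_nonneg _))) κ hκ
    rw [← hs, ← hz] at h1
    unfold tau
    rw [Nat.card_eq_fintype_card, ← hs]
    exact h1
  have hXX : ∀ u, XO w D r ν b E f Δ x u =
      ∑ κ ∈ range (ν + 1), (co w D r ν b κ : ℝ) * (if eval₂ (ev x) u Δ = 0 then 0 else tau w D r E f x u ^ κ) := by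
    intro u
    unfold XO
    split_ifs
    · simp
    · rfl
  have hcb1 : ∑ κ ∈ range (ν + 1), (co w D r ν b κ : ℝ) ≤ c₁ := by
    rw [hc₁]
    exact single_le_sum (f := fun b => ∑ κ ∈ range (ν + 1), (co w D r ν b κ : ℝ)) (fun _ _ => by positivity) (mem_range.2 (by omega))
  have hcb2 : ∑ κ ∈ range (ν + 1), (co w D r ν b κ : ℝ) ^ 2 ≤ c₂ := by
    rw [hc₂]
    exact single_le_sum (f := fun b => ∑ κ ∈ range (ν + 1), (co w D r ν b κ : ℝ) ^ 2) (fun _ _ => by positivity) (mem_range.2 (by omega))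
  refine ⟨?_, ?_⟩
  · rw [← hs, ← hz]
    -- the comparison with the main terms
    have h1 : |av (XO w D r ν b E f Δ x) - ∑ κ ∈ range (ν + 1), (co w D r ν b κ : ℝ) *
        ∑ l ∈ range (κ + 1), (κ.choose l : ℝ) * gm l * (z + vv w D r) ^ (κ - l)| ≤ c₁ * K / s := by
      have h2 : XO w D r ν b E f Δ x = fun u => ∑ κ ∈ range (ν + 1), (co w D r ν b κ : ℝ) *
          (if eval₂ (ev x) u Δ = 0 then 0 else tau w D r E f x u ^ κ) := funext hXX
      rw [h2, av_sum, ← sum_sub_distrib]
      refine (abs_sum_le_sum_abs _ _).trans ?_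
      have h3 : ∀ κ ∈ range (ν + 1), |av (fun u => (co w D r ν b κ : ℝ) * (if eval₂ (ev x) u Δ = 0 then 0 else tau w D r E f x u ^ κ)) -
          (co w D r ν b κ : ℝ) * ∑ l ∈ range (κ + 1), (κ.choose l : ℝ) * gm l * (z + vv w D r) ^ (κ - l)| ≤ (co w D r ν b κ : ℝ) * (K / s) := by
        intro κ hκ
        rw [mem_range] at hκ
        rw [av_smul, ← mul_sub, abs_mul, abs_of_nonneg (Nat.cast_nonneg _ : (0 : ℝ) ≤ _)]
        exact mul_le_mul_of_nonneg_left (hmom κ (by omega)).1 (Nat.cast_nonneg _)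
      refine (sum_le_sum h3).trans ?_
      rw [← sum_mul, mul_div_assoc]
      exact mul_le_mul_of_nonneg_right hcb1 (by positivity)
    have h2 : |∑ κ ∈ range (ν + 1), (co w D r ν b κ : ℝ) * ∑ l ∈ range (κ + 1), (κ.choose l : ℝ) * gm l * (z + vv w D r) ^ (κ - l) -
        ∑ l ∈ range (ν + 1), (TE w D r ν b l : ℝ) * z ^ l| ≤ c₁ * G / s := by
      rcases Nat.even_or_odd b with hb2 | hb2
      · have h3 : ∑ l ∈ range (ν + 1), (TE w D r ν b l : ℝ) * z ^ l = ∑ κ ∈ range (ν + 1), (co w D r ν b κ : ℝ) *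
            ∑ l ∈ range (κ + 1), (κ.choose l : ℝ) * gm l * (z + vv w D r) ^ (κ - l) := by
          unfold TE
          simp only [if_pos hb2]
          unfold TT
          push_cast
          have h4 : ∀ κ ∈ range (ν + 1), (co w D r ν b κ : ℝ) * ∑ l ∈ range (κ + 1), (κ.choose l : ℝ) * gm l * (z + vv w D r) ^ (κ - l) =
              ∑ l ∈ range (ν + 1), (cc w D r ν (b / 2) κ : ℝ) * (mid (vv w D r) κ l : ℝ) * z ^ l := by
            intro κ hκ
            rw [mem_range] at hκ
            rw [expand _ _ κ ν (by omega), mul_sum]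
            have h5 : co w D r ν b κ = cc w D r ν (b / 2) κ := by
              unfold co cc
              rw [Nat.mul_div_cancel' hb2.two_dvd]
            rw [h5]
            exact sum_congr rfl fun l _ => by ring
          rw [sum_congr rfl h4, sum_comm]
          exact sum_congr rfl fun l _ => by rw [sum_mul]
        rw [h3, sub_self, abs_zero]
        positivity
      · have h3 : ∑ l ∈ range (ν + 1), (TE w D r ν b l : ℝ) * z ^ l = 0 := by
          refine sum_eq_zero fun l _ => ?_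
          unfold TE
          rw [if_neg (Nat.not_even_iff_odd.2 hb2), Nat.cast_zero, zero_mul]
        rw [h3, sub_zero]
        rcases Nat.even_or_odd D with hD2 | hD2
        · have h4 : ∑ κ ∈ range (ν + 1), (co w D r ν b κ : ℝ) * ∑ l ∈ range (κ + 1), (κ.choose l : ℝ) * gm l * (z + vv w D r) ^ (κ - l) = 0 := by
            refine sum_eq_zero fun κ _ => ?_
            rw [co_zero w D r ν b κ hD2 hb2, Nat.cast_zero, zero_mul]
          rw [h4, abs_zero]
          positivity
        · have hvv : vv w D r = 0 := by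
            unfold vv
            rw [if_neg (Nat.not_even_iff_odd.2 hD2)]
          rw [hvv, Nat.cast_zero, add_zero]
          have hzs : z ≤ |C₁| / s := by
            rw [hz, div_le_div_iff₀ (by positivity) hs0]
            obtain ⟨a, ha⟩ := hD2
            have h4 : 2 * (D / 2) = D - 1 := by omega
            rw [h4] at hZ'
            calc (zeros (ev x) (E ∪ Set.range h) : ℝ) * s ≤ |C₁| * s ^ (D - 1) * s := mul_le_mul_of_nonneg_right hZ' hs0.le
              _ = |C₁| * s ^ D := by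
                rw [mul_assoc, ← pow_succ]
                congr 2
                omega
          have hz1 : z ≤ 1 + |C₁| := by
            have : |C₁| / s ≤ |C₁| := div_le_self (abs_nonneg _) hs1
            linarith
          refine (abs_sum_le_sum_abs _ _).trans ?_
          have h4 : ∀ κ ∈ range (ν + 1), |(co w D r ν b κ : ℝ) * ∑ l ∈ range (κ + 1), (κ.choose l : ℝ) * gm l * z ^ (κ - l)| ≤
              (co w D r ν b κ : ℝ) * (G / s) := by
            intro κ hκ
            rw [abs_mul, abs_of_nonneg (Nat.cast_nonneg _ : (0 : ℝ) ≤ _)]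
            rcases Nat.even_or_odd κ with hκ2 | hκ2
            · rw [co_even w D r ν b κ hb2 hκ2, Nat.cast_zero, zero_mul, zero_mul]
            · refine mul_le_mul_of_nonneg_left ?_ (Nat.cast_nonneg _)
              have h5 : ∑ l ∈ range (κ + 1), (κ.choose l : ℝ) * gm l * (|C₁| * (1 + |C₁|) ^ κ) ≤ G := by
                rw [hG]
                exact single_le_sum (f := fun κ => ∑ l ∈ range (κ + 1), (κ.choose l : ℝ) * gm l * (|C₁| * (1 + |C₁|) ^ κ))
                  (fun _ _ => by positivity) hκ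
              refine le_trans ?_ (div_le_div_of_nonneg_right h5 hs0.le)
              refine (abs_sum_le_sum_abs _ _).trans ?_
              rw [sum_div]
              refine sum_le_sum fun l hl => ?_
              rw [mem_range] at hl
              rcases Nat.even_or_odd l with hl2 | hl2
              · rw [abs_of_nonneg (by positivity), mul_div_assoc]
                refine mul_le_mul_of_nonneg_left ?_ (by positivity)
                have h6 : 1 ≤ κ - l := by
                  obtain ⟨a, ha⟩ := hκ2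
                  obtain ⟨b, hb⟩ := hl2
                  omega
                have h7 : z ^ (κ - l) = z * z ^ (κ - l - 1) := by
                  rw [← pow_succ']
                  congr 1
                  omega
                have h8 : z ^ (κ - l - 1) ≤ (1 + |C₁|) ^ κ := by
                  refine (pow_le_pow_left₀ hz0 hz1 _).trans (pow_le_pow_right₀ ?_ (by omega))
                  linarith [abs_nonneg C₁]
                rw [h7]
                calc z * z ^ (κ - l - 1) ≤ |C₁| / s * (1 + |C₁|) ^ κ := mul_le_mul hzs h8 (by positivity) (by positivity)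
                  _ = _ := by ring
              · have h6 : gm l = 0 := if_neg (Nat.not_even_iff_odd.2 hl2)
                rw [h6, Nat.cast_zero, mul_zero, zero_mul, abs_zero, zero_mul, zero_div]
          refine (sum_le_sum h4).trans ?_
          rw [← sum_mul, mul_div_assoc]
          exact mul_le_mul_of_nonneg_right hcb1 (by positivity)
    have h3 : av (XO w D r ν b E f Δ x) - ∑ l ∈ range (ν + 1), (TE w D r ν b l : ℝ) * z ^ l =
        (av (XO w D r ν b E f Δ x) - ∑ κ ∈ range (ν + 1), (co w D r ν b κ : ℝ) *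
          ∑ l ∈ range (κ + 1), (κ.choose l : ℝ) * gm l * (z + vv w D r) ^ (κ - l)) +
        (∑ κ ∈ range (ν + 1), (co w D r ν b κ : ℝ) * ∑ l ∈ range (κ + 1), (κ.choose l : ℝ) * gm l * (z + vv w D r) ^ (κ - l) -
          ∑ l ∈ range (ν + 1), (TE w D r ν b l : ℝ) * z ^ l) := by ring
    rw [h3]
    refine (abs_add_le _ _).trans ((add_le_add h1 h2).trans ?_)
    rw [← add_div]
    refine div_le_div_of_nonneg_right ?_ hs0.le
    have : 0 ≤ ((ν + 1 : ℕ) : ℝ) * (c₂ * K) := by positivity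
    linarith
  · have h1 : ∀ u : (Σ a, ι a) → F, XO w D r ν b E f Δ x u ^ 2 ≤
        ((ν + 1 : ℕ) : ℝ) * ∑ κ ∈ range (ν + 1), (co w D r ν b κ : ℝ) ^ 2 * (tau w D r E f x u ^ κ) ^ 2 := by
      intro u
      rw [hXX]
      have h2 := sq_sum_le_card_mul_sum_sq (s := range (ν + 1))
        (f := fun κ => (co w D r ν b κ : ℝ) * (if eval₂ (ev x) u Δ = 0 then 0 else tau w D r E f x u ^ κ))
      rw [card_range] at h2
      refine h2.trans (mul_le_mul_of_nonneg_left (sum_le_sum fun κ _ => ?_) (Nat.cast_nonneg _))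
      rw [mul_pow]
      refine mul_le_mul_of_nonneg_left ?_ (sq_nonneg _)
      split_ifs
      · rw [zero_pow two_ne_zero]
        exact sq_nonneg _
      · exact le_rfl
    refine (av_mono _ _ h1).trans ?_
    rw [av_smul, av_sum]
    have h2 : ∑ κ ∈ range (ν + 1), av (fun u => (co w D r ν b κ : ℝ) ^ 2 * (tau w D r E f x u ^ κ) ^ 2) ≤ c₂ * K := by
      refine le_trans ?_ (mul_le_mul_of_nonneg_right hcb2 hK0)
      rw [sum_mul]
      refine sum_le_sum fun κ hκ => ?_
      rw [mem_range] at hκ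
      rw [av_smul]
      exact mul_le_mul_of_nonneg_left (hmom κ (by omega)).2 (sq_nonneg _)
    have h3 := mul_le_mul_of_nonneg_left h2 (Nat.cast_nonneg (ν + 1) : (0 : ℝ) ≤ _)
    have h4 : 0 ≤ c₁ * (K + G) := by positivity
    linarith

end Q282UV
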