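import Pool.Agent.Q282.UV.Sec
import Pool.Agent.Q282.AE.Sum

/-!
# The points of a base variety
-/

set_option autoImplicit false
set_option linter.unusedSectionVars false

namespace Q282UV

open Finset MvPolynomial
open Q282AE (Gen card_not_gen card_pos card_one)

variable {k : Type} [Field k] [Fintype k] {M e : ℕ} {F : Type} [Field F] [Fintype F] [Algebra k F]

/-- the point satisfies the equations -/
def On (G : Set (MvPolynomial (Fin M) k)) (x : Fin M → F) : Prop := ∀ g ∈ G, aeval x g = 0

lemma gen_of_image (p : Fin e → MvPolynomial (Fin M) k) (x : Fin M → F) (h : Gen k (fun i => aeval x (p i))) : Gen k x := by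
  intro y
  obtain ⟨g, hg⟩ := h y
  refine ⟨bind₁ p g, ?_⟩
  rw [aeval_bind₁]
  exact hg

open Classical in
lemma card_fibres (G : Set (MvPolynomial (Fin M) k)) (p : Fin e → MvPolynomial (Fin M) k) (C : ℕ)
    (hC : ∀ y : Fin e → F, Nat.card {x : Fin M → F // On G x ∧ ∀ i, aeval x (p i) = y i} ≤ C) (Y : Finset (Fin e → F)) (T : Finset (Fin M → F))
    (hT : ∀ x ∈ T, On G x ∧ (fun i => aeval x (p i)) ∈ Y) : T.card ≤ C * Y.card := by
  have h1 : T.card ≤ ∑ y ∈ Y, (T.filter fun x => (fun i => aeval x (p i)) = y).card := by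
    rw [← card_eq_sum_card_fiberwise (f := fun x i => aeval x (p i)) (s := T) (t := Y)]
    intro x hx
    exact (hT x hx).2
  have h2 : ∀ y ∈ Y, (T.filter fun x => (fun i => aeval x (p i)) = y).card ≤ C := by
    intro y _
    refine le_trans ?_ (hC y)
    rw [Nat.card_eq_fintype_card, Fintype.card_subtype]
    refine card_le_card fun x hx => ?_
    rw [mem_filter] at hx ⊢
    exact ⟨mem_univ _, (hT x hx.1).1, fun i => congrFun hx.2 i⟩
  refine h1.trans ((sum_le_sum h2).trans (le_of_eq ?_))
  rw [sum_const, smul_eq_mul, mul_comm]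

open Classical in
/-- the number of the points -/
lemma card_on (G : Set (MvPolynomial (Fin M) k)) (p : Fin e → MvPolynomial (Fin M) k) (C : ℕ)
    (hC : ∀ y : Fin e → F, Nat.card {x : Fin M → F // On G x ∧ ∀ i, aeval x (p i) = y i} ≤ C) :
    ((univ.filter fun x : Fin M → F => On G x).card : ℝ) ≤ C * (Fintype.card F : ℝ) ^ e := by
  have h1 := card_fibres G p C hC univ (univ.filter fun x : Fin M → F => On G x) fun x hx => ⟨(mem_filter.1 hx).2, mem_univ _⟩
  rw [card_univ, Fintype.card_fun, Fintype.card_fin] at h1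
  exact_mod_cast h1

open Classical in
/-- the number of the points whose coordinates do not generate the field -/
lemma card_on_not_gen (he : 1 ≤ e) (G : Set (MvPolynomial (Fin M) k)) (p : Fin e → MvPolynomial (Fin M) k) (C : ℕ)
    (hC : ∀ y : Fin e → F, Nat.card {x : Fin M → F // On G x ∧ ∀ i, aeval x (p i) = y i} ≤ C) :
    ((univ.filter fun x : Fin M → F => On G x ∧ ¬ Gen k x).card : ℝ) ≤ 2 * C * ((Fintype.card F : ℝ) ^ e / Real.sqrt (Fintype.card F)) := by
  have h1 := card_fibres G p C hC (univ.filter fun y : Fin e → F => ¬ Gen k y) (univ.filter fun x : Fin M → F => On G x ∧ ¬ Gen k x) (by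
    intro x hx
    rw [mem_filter] at hx
    refine ⟨hx.2.1, mem_filter.2 ⟨mem_univ _, fun h => hx.2.2 (gen_of_image p x h)⟩⟩)
  have h2 : ((univ.filter fun x : Fin M → F => On G x ∧ ¬ Gen k x).card : ℝ) ≤ C * ((univ.filter fun y : Fin e → F => ¬ Gen k y).card : ℝ) := by
    exact_mod_cast h1
  refine h2.trans ?_
  have h5 := card_not_gen (k := k) (F := F) he
  rw [Nat.card_eq_fintype_card, Fintype.card_subtype] at h5
  obtain ⟨s, hs⟩ : ∃ s : ℝ, s = Real.sqrt (Fintype.card F) := ⟨_, rfl⟩
  have hp0 : (0 : ℝ) < Fintype.card F := card_pos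
  have hs1 : 1 ≤ s := by
    rw [hs]
    exact Real.one_le_sqrt.2 card_one
  have hs0 : 0 < s := by linarith
  have hsp : (Fintype.card F : ℝ) = s ^ 2 := by
    rw [hs, Real.sq_sqrt hp0.le]
  have h6 : (Fintype.card k : ℝ) ^ (e * (Module.finrank k F / 2)) ≤ s ^ e := by
    have h7 : (Fintype.card F : ℝ) = (Fintype.card k : ℝ) ^ Module.finrank k F := by
      have : Fintype.card F = Fintype.card k ^ Module.finrank k F := Module.card_eq_pow_finrank
      exact_mod_cast this
    rw [mul_comm, pow_mul]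
    refine pow_le_pow_left₀ (by positivity) ?_ _
    rw [hs]
    refine Real.le_sqrt_of_sq_le ?_
    rw [h7, ← pow_mul]
    have : (1 : ℝ) ≤ Fintype.card k := by exact_mod_cast Fintype.one_lt_card.le
    exact pow_le_pow_right₀ this (by omega)
  have h7 : s ^ e ≤ (Fintype.card F : ℝ) ^ e / s := by
    rw [le_div_iff₀ hs0, hsp, ← pow_mul]
    calc s ^ e * s = s ^ (e + 1) := (pow_succ _ _).symm
      _ ≤ s ^ (2 * e) := pow_le_pow_right₀ hs1 (by omega)
  rw [← hs]
  calc (C : ℝ) * ((univ.filter fun y : Fin e → F => ¬ Gen k y).card : ℝ) ≤ C * (2 * ((Fintype.card F : ℝ) ^ e / s)) := by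
        refine mul_le_mul_of_nonneg_left ?_ (Nat.cast_nonneg _)
        linarith
    _ = _ := by ring

end Q282UV
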