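import Pool.Agent.Q282.UV.Tur

/-!
# Multiplicities from few sums of powers
-/

set_option autoImplicit false
set_option linter.unusedSectionVars false

namespace Q282UV

open Finset
open Q282OR (fej fej_nonneg sum_weights icc_ico)
open Q282AE (finite_weil)

/-- on the circle the kernel is the square of a partial sum -/
lemma fej_eq (K : ℕ) (z : ℂ) (hz : ‖z‖ = 1) : fej K z = ‖∑ m ∈ range (K + 1), z ^ m‖ ^ 2 := by
  induction K with
  | zero =>
    unfold fej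
    simp
  | succ K ih =>
    have h1 : fej (K + 1) z = fej K z + (2 * (∑ m ∈ range (K + 2), z ^ m).re - 1) := by
      unfold fej
      have h2 : ∑ m ∈ Icc 1 (K + 1), (((K + 1 : ℕ) : ℝ) + 1 - m) * (z ^ m).re =
          ∑ m ∈ Icc 1 K, ((K : ℝ) + 1 - m) * (z ^ m).re + ∑ m ∈ Icc 1 (K + 1), (z ^ m).re := by
        have h3 : ∑ m ∈ Icc 1 K, ((K : ℝ) + 1 - m) * (z ^ m).re = ∑ m ∈ Icc 1 (K + 1), ((K : ℝ) + 1 - m) * (z ^ m).re := by
          rw [icc_ico K, icc_ico (K + 1), sum_Ico_succ_top (show 1 ≤ K + 1 by omega) fun m : ℕ => ((K : ℝ) + 1 - m) * (z ^ m).re]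
          push_cast
          ring
        rw [h3, ← sum_add_distrib]
        refine sum_congr rfl fun m _ => ?_
        push_cast
        ring
      have h4 : (∑ m ∈ range (K + 2), z ^ m).re = 1 + ∑ m ∈ Icc 1 (K + 1), (z ^ m).re := by
        rw [Complex.re_sum, sum_range_eq_add_Ico _ (by omega)]
        rw [icc_ico]
        simp
      rw [h2, h4]
      push_cast
      ring
    rw [h1, ih]
    have h2 : ∑ m ∈ range (K + 2), z ^ m = 1 + z * ∑ m ∈ range (K + 1), z ^ m := by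
      rw [sum_range_succ', mul_sum, pow_zero, add_comm]
      congr 1
      exact sum_congr rfl fun m _ => by rw [pow_succ']
    obtain ⟨s, hs⟩ : ∃ s : ℂ, s = ∑ m ∈ range (K + 1), z ^ m := ⟨_, rfl⟩
    rw [← hs] at h2
    rw [← hs, h2]
    have h3 : ‖z * s‖ ^ 2 = ‖s‖ ^ 2 := by
      rw [norm_mul, hz, one_mul]
    have h4 : ‖1 + z * s‖ ^ 2 = 1 + 2 * (z * s).re + ‖z * s‖ ^ 2 := by
      rw [← Complex.normSq_eq_norm_sq, ← Complex.normSq_eq_norm_sq, Complex.normSq_apply, Complex.normSq_apply]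
      simp only [Complex.add_re, Complex.add_im, Complex.one_re, Complex.one_im]
      ring
    rw [h4, Complex.add_re, Complex.one_re]
    linarith

lemma fej_one (K : ℕ) : fej K 1 = ((K : ℝ) + 1) ^ 2 := by
  rw [fej_eq K 1 norm_one]
  simp only [one_pow, sum_const, card_range, nsmul_eq_mul, mul_one]
  have h : ((K + 1 : ℕ) : ℂ) = (((K : ℝ) + 1 : ℝ) : ℂ) := by push_cast; rfl
  rw [h, Complex.norm_real, Real.norm_of_nonneg (by positivity)]

lemma fej_away (K : ℕ) (z : ℂ) (hz : ‖z‖ = 1) (h1 : z ≠ 1) : fej K z ≤ (2 / ‖z - 1‖) ^ 2 := by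
  rw [fej_eq K z hz]
  refine pow_le_pow_left₀ (norm_nonneg _) ?_ 2
  rw [geom_sum_eq h1, norm_div]
  refine div_le_div_of_nonneg_right ?_ (norm_nonneg _)
  refine (norm_sub_le _ _).trans ?_
  rw [norm_pow, hz, one_pow, norm_one]
  norm_num

/-- the sum of the values of the kernel over a multiset -/
lemma fej_sum (K : ℕ) (γ : Multiset ℂ) (s : ℂ) : (γ.map fun g => fej K (g * s)).sum =
    (K + 1) * γ.card + 2 * ∑ m ∈ Icc 1 K, ((K : ℝ) + 1 - m) * ((γ.map fun g => g ^ m).sum * s ^ m).re := by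
  induction γ using Multiset.induction_on with
  | empty => simp
  | cons g γ ih =>
    rw [Multiset.map_cons, Multiset.sum_cons, ih, Multiset.card_cons]
    unfold fej
    have h2 : ∀ m ∈ Icc 1 K, ((K : ℝ) + 1 - m) * (((g ::ₘ γ).map fun g => g ^ m).sum * s ^ m).re =
        ((K : ℝ) + 1 - m) * ((γ.map fun g => g ^ m).sum * s ^ m).re + ((K : ℝ) + 1 - m) * ((g * s) ^ m).re := by
      intro m _
      rw [Multiset.map_cons, Multiset.sum_cons, add_mul, Complex.add_re, mul_pow]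
      ring
    rw [sum_congr rfl h2, sum_add_distrib]
    push_cast
    ring

open Classical in
/-- the multiplicity of one number -/
lemma detect_one (P : Multiset ℂ) (hP : ∀ g ∈ P, ‖g‖ = 1) (s : ℂ) (hs : ‖s‖ = 1) : ∃ n₀ : ℕ, ∀ n, n₀ ≤ n → ∀ γ : Multiset ℂ, (∀ g ∈ γ, ‖g‖ = 1) →
    γ.card = P.card → (∀ m, m < n + 1 → ‖(γ.map fun g => g ^ m).sum - (P.map fun g => g ^ m).sum‖ ≤ 1 / 4) → γ.count s ≤ P.count s := by
  have hs0 : s ≠ 0 := by
    intro h
    rw [h, norm_zero] at hs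
    exact zero_ne_one hs
  have hin : ∀ g : ℂ, g * s⁻¹ = 1 ↔ g = s := by
    intro g
    rw [mul_inv_eq_one₀ hs0]
  obtain ⟨c, hc⟩ : ∃ c : ℝ, c = (P.map fun g => (2 / ‖g * s⁻¹ - 1‖) ^ 2).sum := ⟨_, rfl⟩
  have hupper : ∀ K : ℕ, ∀ P : Multiset ℂ, (∀ g ∈ P, ‖g‖ = 1) → (P.map fun g => fej K (g * s⁻¹)).sum ≤
      P.count s * ((K : ℝ) + 1) ^ 2 + (P.map fun g => (2 / ‖g * s⁻¹ - 1‖) ^ 2).sum := by
    intro K P hP
    induction P using Multiset.induction_on with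
    | empty => simp
    | cons g P ih =>
      rw [Multiset.map_cons, Multiset.sum_cons, Multiset.map_cons, Multiset.sum_cons, Multiset.count_cons]
      have h1 := ih fun g' hg' => hP g' (Multiset.mem_cons_of_mem hg')
      have h2 : ‖g * s⁻¹‖ = 1 := by rw [norm_mul, norm_inv, hs, hP g (Multiset.mem_cons_self g P)]; norm_num
      by_cases hg : s = g
      · subst hg
        rw [if_pos rfl, mul_inv_cancel₀ hs0, fej_one]
        push_cast
        have : (0 : ℝ) ≤ (2 / ‖(1 : ℂ) - 1‖) ^ 2 := sq_nonneg _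
        linarith
      · rw [if_neg hg, add_zero]
        have h3 := fej_away K _ h2 fun h => hg ((hin g).1 h).symm
        linarith
  have hlower : ∀ K : ℕ, ∀ γ : Multiset ℂ, (∀ g ∈ γ, ‖g‖ = 1) → γ.count s * ((K : ℝ) + 1) ^ 2 ≤ (γ.map fun g => fej K (g * s⁻¹)).sum := by
    intro K γ hγ
    induction γ using Multiset.induction_on with
    | empty => simp
    | cons g γ ih =>
      rw [Multiset.map_cons, Multiset.sum_cons, Multiset.count_cons]
      have h1 := ih fun g' hg' => hγ g' (Multiset.mem_cons_of_mem hg')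
      have h2 : ‖g * s⁻¹‖ = 1 := by rw [norm_mul, norm_inv, hs, hγ g (Multiset.mem_cons_self g γ)]; norm_num
      by_cases hg : s = g
      · subst hg
        rw [if_pos rfl, mul_inv_cancel₀ hs0, fej_one]
        push_cast
        linarith
      · rw [if_neg hg, add_zero]
        have h3 := fej_nonneg K _ h2.le
        linarith
  obtain ⟨n₀, hn₀⟩ := exists_nat_gt (4 * c)
  refine ⟨n₀, fun n hn γ hγ hcard hm => ?_⟩
  have h1 := hupper n P hP
  have h2 := hlower n γ hγ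
  rw [fej_sum] at h1 h2
  rw [hcard] at h2
  have h3 : ∑ m ∈ Icc 1 n, ((n : ℝ) + 1 - m) * ((γ.map fun g => g ^ m).sum * s⁻¹ ^ m).re ≤
      ∑ m ∈ Icc 1 n, ((n : ℝ) + 1 - m) * ((P.map fun g => g ^ m).sum * s⁻¹ ^ m).re + ∑ m ∈ Icc 1 n, ((n : ℝ) + 1 - m) * (1 / 4) := by
    rw [← sum_add_distrib]
    refine sum_le_sum fun m hm' => ?_
    rw [mem_Icc] at hm'
    rw [← mul_add]
    have h4 : (m : ℝ) ≤ n := by exact_mod_cast hm'.2
    refine mul_le_mul_of_nonneg_left ?_ (by linarith)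
    have h5 := hm m (by omega)
    have h6 : ((γ.map fun g => g ^ m).sum * s⁻¹ ^ m).re - ((P.map fun g => g ^ m).sum * s⁻¹ ^ m).re ≤ 1 / 4 := by
      rw [← Complex.sub_re, ← sub_mul]
      refine (Complex.re_le_norm _).trans ?_
      rw [norm_mul, norm_pow, norm_inv, hs, inv_one, one_pow, mul_one]
      exact h5
    linarith
  rw [← sum_mul, sum_weights] at h3
  rw [← hc] at h1
  have hn' : 4 * c < n := lt_of_lt_of_le hn₀ (by exact_mod_cast hn)
  have h4 : (γ.count s : ℝ) * ((n : ℝ) + 1) ^ 2 ≤ P.count s * ((n : ℝ) + 1) ^ 2 + c + (n : ℝ) * (n + 1) / 4 := by linarith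
  have h5 : (γ.count s : ℝ) * ((n : ℝ) + 1) ^ 2 < (P.count s + 1) * ((n : ℝ) + 1) ^ 2 := by
    have hn0 : (0 : ℝ) ≤ n := Nat.cast_nonneg n
    nlinarith
  have h6 : (γ.count s : ℝ) < P.count s + 1 := lt_of_mul_lt_mul_right h5 (by positivity)
  have h7 : γ.count s < P.count s + 1 := by exact_mod_cast h6
  omega

/-- the multiplicities of finitely many numbers -/
lemma detect (Q : ℝ) (hQ : 0 < Q) (P : Multiset ℂ) (hP : ∀ g ∈ P, ‖g‖ = Q) (R : Finset ℂ) (hR : ∀ g ∈ R, ‖g‖ = Q) : ∃ n₀ : ℕ, ∀ γ : Multiset ℂ,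
    (∀ g ∈ γ, ‖g‖ = Q) → (∀ m, m < n₀ → ‖dif Q γ P m‖ ≤ 1 / 4) → γ.card = P.card ∧ ∀ g ∈ R, γ.count g ≤ P.count g := by
  classical
  have hn : ∀ g : ℂ, ‖g‖ = Q → ‖g / (Q : ℂ)‖ = 1 := by
    intro g hg
    rw [norm_div, hg, Complex.norm_real, Real.norm_of_nonneg hQ.le, div_self hQ.ne']
  have hQc : (Q : ℂ) ≠ 0 := by exact_mod_cast hQ.ne'
  have hinj : Function.Injective fun g : ℂ => g / (Q : ℂ) := fun a b hab => (div_left_inj' hQc).1 hab
  have h1 : ∀ s : ℂ, ∃ n₀ : ℕ, s ∈ R → ∀ n, n₀ ≤ n → ∀ γ : Multiset ℂ, (∀ g ∈ γ, ‖g‖ = 1) → γ.card = (P.map fun g => g / (Q : ℂ)).card →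
      (∀ m, m < n + 1 → ‖(γ.map fun g => g ^ m).sum - ((P.map fun g => g / (Q : ℂ)).map fun g => g ^ m).sum‖ ≤ 1 / 4) →
      γ.count (s / (Q : ℂ)) ≤ (P.map fun g => g / (Q : ℂ)).count (s / (Q : ℂ)) := by
    intro s
    by_cases hs : s ∈ R
    · obtain ⟨n₀, hn₀⟩ := detect_one (P.map fun g => g / (Q : ℂ)) (by
        intro g hg
        rw [Multiset.mem_map] at hg
        obtain ⟨g', hg', rfl⟩ := hg
        exact hn g' (hP g' hg')) (s / (Q : ℂ)) (hn s (hR s hs))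
      exact ⟨n₀, fun _ => hn₀⟩
    · exact ⟨0, fun h => absurd h hs⟩
  choose n₀ hn₀ using h1
  refine ⟨∑ s ∈ R, n₀ s + 1, fun γ hγ hm => ?_⟩
  have hcard : γ.card = P.card := by
    have h2 := hm 0 (by omega)
    unfold dif at h2
    simp only [pow_zero, Multiset.map_const', Multiset.sum_replicate, nsmul_eq_mul, mul_one] at h2
    have h3 : ‖((γ.card : ℂ) - (P.card : ℂ))‖ = |((γ.card : ℤ) - (P.card : ℤ) : ℤ)| := by
      have : ((γ.card : ℂ) - (P.card : ℂ)) = (((γ.card : ℤ) - (P.card : ℤ) : ℤ) : ℂ) := by push_cast; rfl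
      rw [this, Complex.norm_intCast]
      push_cast
      rfl
    rw [h3] at h2
    have h4 : |((γ.card : ℤ) - (P.card : ℤ) : ℤ)| < 1 := by
      have : ((|((γ.card : ℤ) - (P.card : ℤ) : ℤ)| : ℤ) : ℝ) < 1 := by linarith
      exact_mod_cast this
    rw [Int.abs_lt_one_iff] at h4
    omega
  refine ⟨hcard, fun s hs => ?_⟩
  have h2 := hn₀ s hs (∑ s ∈ R, n₀ s) (single_le_sum (f := n₀) (fun _ _ => Nat.zero_le _) hs) (γ.map fun g => g / (Q : ℂ)) (by
    intro g hg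
    rw [Multiset.mem_map] at hg
    obtain ⟨g', hg', rfl⟩ := hg
    exact hn g' (hγ g' hg')) (by rw [Multiset.card_map, Multiset.card_map, hcard]) (by
    intro m hm'
    have h3 := hm m hm'
    unfold dif at h3
    rw [Multiset.map_map, Multiset.map_map]
    exact h3)
  rw [Multiset.count_map_eq_count' _ _ hinj, Multiset.count_map_eq_count' _ _ hinj] at h2
  exact h2

/-- **The multiplicities from the values in an arithmetic progression.** -/
theorem window (Q : ℝ) (hQ : 0 < Q) (P : Multiset ℂ) (hP : ∀ g ∈ P, ‖g‖ = Q) (R : Finset ℂ) (hR : ∀ g ∈ R, ‖g‖ = Q) (B A : ℕ) :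
    ∃ (n₀ : ℕ) (δ : ℝ), 0 < δ ∧ ∀ γ : Multiset ℂ, (∀ g ∈ γ, ‖g‖ = Q) → γ.card ≤ B → ∀ h : ℕ,
      (∀ m < n₀, ∀ t, A < t → t ≤ A + (B + P.card) → ‖dif Q γ P (m + h * t)‖ ≤ δ) → γ.card = P.card ∧ ∀ g ∈ R, γ.count g ≤ P.count g := by
  obtain ⟨n₀, hn₀⟩ := detect Q hQ P hP R hR
  have h0 : (0 : ℝ) < (2 ^ (B + P.card)) ^ (A + 1) := by positivity
  refine ⟨n₀, 1 / 4 / (2 ^ (B + P.card)) ^ (A + 1), by positivity, fun γ hγ hB h hw => ?_⟩
  refine hn₀ γ hγ fun m hm => ?_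
  refine (turan B A Q hQ P hP γ hγ hB _ (by positivity) m h (hw m hm)).trans (le_of_eq ?_)
  field_simp

/-- **The case of integral characteristic polynomials.** -/
theorem window_int (Q : ℝ) (hQ : 0 < Q) (P : Multiset ℂ) (hP : ∀ g ∈ P, ‖g‖ = Q) (R : Finset ℂ) (hR : ∀ g ∈ R, ‖g‖ = Q) (B A : ℕ) :
    ∃ (n₀ : ℕ) (δ : ℝ), 0 < δ ∧ ∀ γ : Multiset ℂ, (∀ g ∈ γ, ‖g‖ = Q) → γ.card ≤ B → ∀ h : ℕ,
      (∀ m < n₀, ∀ t, A < t → t ≤ A + (B + P.card) → ‖dif Q γ P (m + h * t)‖ ≤ δ) → (γ.card = P.card ∧ ∀ g ∈ R, γ.count g ≤ P.count g) ∧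
      ((∃ p : Polynomial ℤ, p.map (Int.castRingHom ℂ) = (γ.map fun g => Polynomial.X - Polynomial.C g).prod) → γ = P) := by
  classical
  obtain ⟨G, hG⟩ : ∃ G : Finset (Multiset ℂ), G = (finite_weil Q B).toFinset := ⟨_, rfl⟩
  obtain ⟨n₀, δ, hδ, hw⟩ := window Q hQ P hP (R ∪ (G.biUnion fun γ => γ.toFinset)) (by
    intro g hg
    rw [mem_union, mem_biUnion] at hg
    rcases hg with hg | ⟨γ, hγ, hg⟩
    · exact hR g hg
    · rw [hG, Set.Finite.mem_toFinset] at hγ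
      exact hγ.2.1 g (Multiset.mem_toFinset.1 hg)) B A
  refine ⟨n₀, δ, hδ, fun γ hγ hB h hd => ?_⟩
  obtain ⟨h1, h2⟩ := hw γ hγ hB h hd
  refine ⟨⟨h1, fun g hg => h2 g (mem_union_left _ hg)⟩, fun hp => ?_⟩
  have hmem : γ ∈ G := by
    rw [hG, Set.Finite.mem_toFinset]
    exact ⟨hB, hγ, hp⟩
  refine Multiset.eq_of_le_of_card_le (Multiset.le_iff_count.2 fun g => ?_) h1.ge
  by_cases hg : g ∈ γ
  · exact h2 g (mem_union_right _ (mem_biUnion.2 ⟨γ, hmem, Multiset.mem_toFinset.2 hg⟩))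
  · rw [Multiset.count_eq_zero_of_notMem hg]
    exact Nat.zero_le _

end Q282UV
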