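import Pool.Agent.Q282.UV.Link
import Pool.Agent.Q282.UV.Det

/-!
# Almost all products with a fixed variety have no more classes than the known ones
-/

set_option autoImplicit false
set_option linter.unusedSectionVars false

namespace Q282UV

open Finset MvPolynomial
open Q282GH (zeros Through)
open Q282GP (av gen fam oc tt vv oser kun coh)
open Q282AE (Gen idl Box at' ev tau Good member bet norm_sum_pow growth)

/-- the expected multiset -/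
noncomputable def PP (w : ℕ → ℕ) (D r ν n' : ℕ) (ρ : ℝ) (Γ : ℕ → ℕ → Multiset ℂ) : Multiset ℂ :=
  ∑ b ∈ range (n' + 1), ∑ l ∈ range (ν + 1), TE w D r ν b l • (Γ (n' - b) l).map (fun g => g * ((ρ ^ b : ℝ) : ℂ))

/-- the power sums `A m` belong to `∏ (1 - β' u) / (∏ (1 - γ u) ∏ (1 - β u))`, where the `γ` have absolute value `Q` and the `β` and the
`β'` at most `Q / √q` -/
structure IsLF (A : ℕ → ℂ) (q Q B₁ : ℝ) (B₂ : ℕ) (γ β β' : Multiset ℂ) : Prop where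
  sum : ∀ m, 1 ≤ m → A m = (γ.map fun g => g ^ m).sum + (β.map fun g => g ^ m).sum - (β'.map fun g => g ^ m).sum
  top : ∀ g ∈ γ, ‖g‖ = Q
  low : ∀ g ∈ β + β', ‖g‖ ≤ Q / Real.sqrt q
  card : γ.card ≤ B₂
  num : ((β + β').card : ℝ) ≤ B₁

/-- the multiset is as expected, up to the precision of the data -/
def Expected (P : Multiset ℂ) (R : Finset ℂ) (γ : Multiset ℂ) [DecidableEq ℂ] : Prop :=
  (γ.card = P.card ∧ ∀ g ∈ R, γ.count g ≤ P.count g) ∧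
  ((∃ p : Polynomial ℤ, p.map (Int.castRingHom ℂ) = (γ.map fun g => Polynomial.X - Polynomial.C g).prod) → γ = P)

section

lemma map_pow_sum (s : Multiset ℂ) (t : ℕ) (m : ℕ) : ((t • s).map fun g => g ^ m).sum = t * (s.map fun g => g ^ m).sum := by
  rw [Multiset.map_nsmul, Multiset.sum_nsmul, nsmul_eq_mul]

lemma PP_sum (w : ℕ → ℕ) (D r ν n' : ℕ) (ρ : ℝ) (Γ : ℕ → ℕ → Multiset ℂ) (m : ℕ) (hρ : 0 < ρ) :
    ((PP w D r ν n' ρ Γ).map fun g => g ^ m).sum = (((ρ ^ m) ^ n' : ℝ) : ℂ) * ∑ b ∈ range (n' + 1), ∑ l ∈ range (ν + 1),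
      (TE w D r ν b l : ℂ) * (((Γ (n' - b) l).map fun g => g ^ m).sum / (((ρ ^ m) ^ (n' - b) : ℝ) : ℂ)) := by
  have h1 : ∀ (ι : Type) (s : Finset ι) (F : ι → Multiset ℂ), ((∑ x ∈ s, F x).map fun g => g ^ m).sum = ∑ x ∈ s, ((F x).map fun g => g ^ m).sum := by
    intro ι s F
    classical
    induction s using Finset.induction_on with
    | empty => simp
    | insert a s ha ih => rw [sum_insert ha, sum_insert ha, Multiset.map_add, Multiset.sum_add, ih]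
  unfold PP
  rw [h1, mul_sum]
  refine sum_congr rfl fun b hb => ?_
  rw [mem_range] at hb
  rw [h1, mul_sum]
  refine sum_congr rfl fun l _ => ?_
  rw [map_pow_sum, Multiset.map_map]
  have h2 : ((Γ (n' - b) l).map ((fun g => g ^ m) ∘ fun g => g * ((ρ ^ b : ℝ) : ℂ))).sum =
      ((Γ (n' - b) l).map fun g => g ^ m).sum * (((ρ ^ b : ℝ) : ℂ)) ^ m := by
    rw [← Multiset.sum_map_mul_right]
    congr 1
    refine Multiset.map_congr rfl fun g _ => ?_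
    simp only [Function.comp_apply]
    rw [mul_pow]
  rw [h2]
  have h3 : (ρ ^ m) ^ n' = (ρ ^ m) ^ b * (ρ ^ m) ^ (n' - b) := by
    rw [← pow_add]
    congr 1
    omega
  rw [h3]
  have h4 : ((((ρ ^ m) ^ (n' - b) : ℝ)) : ℂ) ≠ 0 := by
    have : (0 : ℝ) < (ρ ^ m) ^ (n' - b) := by positivity
    exact_mod_cast this.ne'
  have h5 : (((ρ ^ b : ℝ) : ℂ)) ^ m = (((ρ ^ m) ^ b : ℝ) : ℂ) := by
    rw [← Complex.ofReal_pow, ← pow_mul, ← pow_mul, mul_comm]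
  rw [h5, Complex.ofReal_mul]
  field_simp

lemma PP_norm (w : ℕ → ℕ) (D r ν n' : ℕ) (ρ W : ℝ) (hρ : 0 ≤ ρ) (Γ : ℕ → ℕ → Multiset ℂ) (hΓ : ∀ j ≤ n', ∀ l ≤ ν, ∀ g ∈ Γ j l, ‖g‖ = ρ ^ j * W) :
    ∀ g ∈ PP w D r ν n' ρ Γ, ‖g‖ = ρ ^ n' * W := by
  intro g hg
  unfold PP at hg
  rw [Multiset.mem_sum] at hg
  obtain ⟨b, hb, hg⟩ := hg
  rw [Multiset.mem_sum] at hg
  obtain ⟨l, hl, hg⟩ := hg
  have hg' := Multiset.mem_of_mem_nsmul hg
  rw [Multiset.mem_map] at hg'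
  obtain ⟨g', hg', rfl⟩ := hg'
  rw [mem_range] at hb hl
  rw [norm_mul, Complex.norm_real, Real.norm_of_nonneg (by positivity), hΓ (n' - b) (by omega) l (by omega) g' hg']
  have h3 : ρ ^ n' = ρ ^ b * ρ ^ (n' - b) := by
    rw [← pow_add]
    congr 1
    omega
  rw [h3]
  ring

end

lemma growth' (r : ℝ) (hr : 1 < r) (a b : ℝ) (hb : 0 ≤ b) (κ : ℕ) : ∃ N₁ : ℕ, ∀ N : ℕ, N₁ ≤ N → ∀ m : ℕ, N ≤ 8 * m → a + b * (N + 1 : ℝ) ^ κ ≤ r ^ m := by
  obtain ⟨m₁, hm₁⟩ := growth r hr a (b * 4 ^ κ) κ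
  refine ⟨8 * m₁, fun N hN m hm => ?_⟩
  refine le_trans ?_ (hm₁ m (by omega))
  have h1 : ((N : ℝ) + 1) ^ κ ≤ (4 * (2 * m + 2)) ^ κ := by
    refine pow_le_pow_left₀ (by positivity) ?_ _
    have : (N : ℝ) ≤ 8 * m := by exact_mod_cast hm
    linarith
  rw [mul_pow] at h1
  have h2 := mul_le_mul_of_nonneg_left h1 hb
  rw [← mul_assoc] at h2
  linarith

variable {k : Type} [Field k] [Fintype k] {M n : ℕ} {A : Type} [Fintype A] [DecidableEq A] {ι : A → Type} [∀ a, Fintype (ι a)]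
  [∀ a, DecidableEq (ι a)]

/-- there are numbers as in `IsFrob` and `IsLF` and the numbers on the edge are not the expected ones -/
def Exc (Fm : ℕ → Type) [∀ m, Field (Fm m)] [∀ m, Algebra k (Fm m)] (G : Set (MvPolynomial (Fin M) k)) (w : ℕ → ℕ) (D r b ν n' ε : ℕ)
    (E : Set (MvPolynomial (Fin (n + 1)) (MvPolynomial (Fin M) k)))
    (f : (a : A) → ι a → MvPolynomial (Fin (n + 1)) (MvPolynomial (Fin M) k)) (Δ : MvPolynomial (Σ a, ι a) (MvPolynomial (Fin M) k))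
    (η : (m : ℕ) → (Fin M → Fm m) → ℕ → Multiset ℂ) (P : Multiset ℂ) (R : Finset ℂ)
    (B₂ : ℕ) (B₁ : ℝ) (c : (Σ a, ι a) → MvPolynomial (Fin M) k) [DecidableEq ℂ] : Prop :=
  ∃ (α : (m : ℕ) → (Fin M → Fm m) → Multiset ℂ) (γ β β' : Multiset ℂ), IsFrob Fm G w D r b E f Δ c α ∧
    IsLF (traceSum Fm G w D r ν n' Δ c α η) (Nat.card k) (Real.sqrt (Nat.card k) ^ n' * (Nat.card k : ℝ) ^ ε) B₁ B₂ γ β β' ∧ ¬ Expected P R γ

end Q282UV
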