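import Pool.Agent.Q282.UV.Core

/-!
# The number of the exceptional members
-/

set_option autoImplicit false
set_option linter.unusedSectionVars false

namespace Q282UV

open Finset MvPolynomial
open Q282GH (zeros Through)
open Q282GP (av gen fam oc tt vv oser kun coh)
open Q282AE (Gen idl Box at' ev tau Good member bet norm_sum_pow growth)

variable {k : Type} [Field k] [Fintype k] {M n : ℕ} {A : Type} [Fintype A] [DecidableEq A] {ι : A → Type} [∀ a, Fintype (ι a)]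
  [∀ a, DecidableEq (ι a)]

open Classical in
theorem core (D : ℕ) (hD : 1 ≤ D) (r : ℕ) (hr : 1 ≤ r) (hA : Fintype.card A = r) (w : ℕ → ℕ) (hw : w (D + r) = 1) (C₀ C₁ : ℝ)
    (ν : ℕ) (hν : 1 ≤ ν) (n' : ℕ) {J : Type} {h : J → MvPolynomial (Fin (n + 1)) (MvPolynomial (Fin M) k)} {e : J → ℕ} {d : A → ℕ}
    {f : (a : A) → ι a → MvPolynomial (Fin (n + 1)) (MvPolynomial (Fin M) k)} (hh : ∀ j, (h j).IsHomogeneous (e j))
    (hd : ∀ j a, e j + 2 * ν ≤ d a + 1) (hf : ∀ a, Through h (d a) (f a)) (E : Set (MvPolynomial (Fin (n + 1)) (MvPolynomial (Fin M) k)))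
    (Δ : MvPolynomial (Σ a, ι a) (MvPolynomial (Fin M) k)) (G : Set (MvPolynomial (Fin M) k)) (ε : ℕ) (hε : 1 ≤ ε) (p : Fin ε → MvPolynomial (Fin M) k)
    (C₃ : ℕ) (C₂ β₀ : ℝ) (hC₂ : 0 ≤ C₂) (hβ₀ : 0 ≤ β₀) (b B₂ κ : ℕ) (B₀ : ℝ)
    (Fm : ℕ → Type) [∀ m, Field (Fm m)] [∀ m, Algebra k (Fm m)] [∀ m, Fintype (Fm m)] (hF : ∀ m, 1 ≤ m → Module.finrank k (Fm m) = m)
    (hfib : ∀ m, 1 ≤ m → ∀ y : Fin ε → Fm m, Nat.card {x : Fin M → Fm m // On G x ∧ ∀ i, aeval x (p i) = y i} ≤ C₃)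
    (hW : ∀ m, 1 ≤ m → ∀ x : Fin M → Fm m, On G x → map (ev x) Δ ≠ 0 →
      |(zeros (ev x) E : ℝ) - ∑ j ∈ range (D + r + 1), w j * (Nat.card (Fm m) : ℝ) ^ j| ≤ C₀ * Real.sqrt (Nat.card (Fm m)) ^ (2 * r + D - 1))
    (hZ : ∀ m, 1 ≤ m → ∀ x : Fin M → Fm m, On G x → map (ev x) Δ ≠ 0 →
      (zeros (ev x) (E ∪ Set.range h) : ℝ) ≤ C₁ * (Nat.card (Fm m) : ℝ) ^ (D / 2))
    (P : Multiset ℂ) (hPn : ∀ g ∈ P, ‖g‖ = Real.sqrt (Nat.card k) ^ n' * (Nat.card k : ℝ) ^ ε)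
    (R : Finset ℂ) (hR : ∀ g ∈ R, ‖g‖ = Real.sqrt (Nat.card k) ^ n' * (Nat.card k : ℝ) ^ ε) (ε₀ : ℝ) (hε₀ : 0 < ε₀) (hε₁ : ε₀ ≤ 1) :
    ∃ C' : ℝ, 0 ≤ C' ∧ ∀ (N : ℕ) (η : (m : ℕ) → (Fin M → Fm m) → ℕ → Multiset ℂ)
      (_ : ∀ m, 1 ≤ m → ∀ j ≤ n', ∀ x : Fin M → Fm m, On G x → map (ev x) Δ ≠ 0 → ‖tU η m j x‖ ≤ β₀)
      (Γ : ℕ → ℕ → Multiset ℂ)
      (_ : ∀ m, 1 ≤ m → ∀ j ≤ n', ∀ l ≤ ν, ‖∑ x ∈ univ.filter (fun x : Fin M → Fm m => On G x ∧ map (ev x) Δ ≠ 0),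
        ((((zeros (ev x) (E ∪ Set.range h) : ℝ) / Real.sqrt (Nat.card (Fm m)) ^ D : ℝ) : ℂ) ^ l * (η m x j).sum) - ((Γ j l).map fun g => g ^ m).sum‖ ≤
      C₂ * ((N : ℝ) + 1) ^ κ * (Real.sqrt (Nat.card (Fm m)) ^ j * ((Nat.card (Fm m) : ℝ) ^ ε / Real.sqrt (Nat.card (Fm m)))))
      (_ : PP w D r ν n' (Real.sqrt (Nat.card k)) Γ = P),
      (Nat.card {c : Box k M N (Σ a, ι a) // Exc Fm G w D r b ν n' ε E f Δ η P R B₂
        (B₀ * (N + 1) ^ κ) (fun s => (c s : MvPolynomial (Fin M) k))} : ℝ) * (Nat.card k : ℝ) ^ ((1 - ε₀) * (ε * N / 2 : ℝ)) ≤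
      C' * Nat.card (Box k M N (Σ a, ι a)) := by
  obtain ⟨K₀, K₁, C, hK₀, hK₁, hC, hav⟩ := averages D hD r hr hA w hw C₀ C₁ ν hν n' hh hd hf E Δ G ε hε p C₃ β₀ hβ₀
  obtain ⟨q, hq⟩ : ∃ q : ℕ, q = Nat.card k := ⟨_, rfl⟩
  have hq2 : (2 : ℝ) ≤ q := by
    rw [hq, Nat.card_eq_fintype_card]
    exact_mod_cast Fintype.one_lt_card
  have hq0 : (0 : ℝ) < q := by linarith
  have hq1 : (1 : ℝ) ≤ q := by linarith
  obtain ⟨ρ, hρ⟩ : ∃ ρ : ℝ, ρ = Real.sqrt q := ⟨_, rfl⟩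
  have hρ1 : 1 < ρ := by
    rw [hρ]
    exact Real.lt_sqrt_of_sq_lt (by linarith)
  have hρ0 : 0 < ρ := by linarith
  have hρq : ρ ^ 2 = q := by
    rw [hρ, Real.sq_sqrt hq0.le]
  rw [← hq, ← hρ] at hPn hR ⊢
  obtain ⟨Q, hQ⟩ : ∃ Q : ℝ, Q = ρ ^ n' * (q : ℝ) ^ ε := ⟨_, rfl⟩
  have hQ0 : 0 < Q := by
    rw [hQ]
    positivity
  rw [← hQ] at hR hPn
  obtain ⟨Bt, hBt⟩ : ∃ Bt : ℝ, Bt = ∑ b' ∈ range (n' + 1), (bet w D r b ν b' : ℝ) := ⟨_, rfl⟩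
  have hBt0 : 0 ≤ Bt := by
    rw [hBt]
    positivity
  -- the length of the windows
  obtain ⟨K', hK'⟩ : ∃ K' : ℕ, K' = B₂ + P.card := ⟨_, rfl⟩
  obtain ⟨a, ha⟩ : ∃ a : ℕ, 2 * (K' : ℝ) / ε₀ ≤ a ∧ 1 ≤ a := by
    obtain ⟨a, ha⟩ := exists_nat_ge (2 * (K' : ℝ) / ε₀)
    exact ⟨a + 1, by push_cast; linarith, by omega⟩
  obtain ⟨n₀, δ, hδ, hwin⟩ := window_int Q hQ0 P hPn R hR B₂ a
  rw [← hK'] at hwin
  have hcF : ∀ m, 1 ≤ m → Nat.card (Fm m) = q ^ m := by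
    intro m hm
    rw [Nat.card_eq_fintype_card, hq, Nat.card_eq_fintype_card]
    have : Fintype.card (Fm m) = Fintype.card k ^ Module.finrank k (Fm m) := Module.card_eq_pow_finrank
    rw [this, hF m hm]
  have hsF : ∀ m, 1 ≤ m → Real.sqrt (Nat.card (Fm m)) = ρ ^ m := by
    intro m hm
    rw [hcF m hm]
    push_cast
    rw [← hρq, ← pow_mul, mul_comm 2 m, pow_mul, Real.sqrt_sq (by positivity)]
  have haK : 0 < a + K' := by omega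
  obtain ⟨hN, hhN⟩ : ∃ hN : ℕ → ℕ, hN = fun N => ((N + 1) / 2 - n₀) / (a + K') := ⟨_, rfl⟩
  obtain ⟨Mw, hMw⟩ : ∃ Mw : ℕ → Finset ℕ, Mw = fun N => (range n₀ ×ˢ Ioc a (a + K')).image fun x => x.1 + hN N * x.2 := ⟨_, rfl⟩
  -- the values of m in the windows
  have hm_le : ∀ N : ℕ, n₀ ≤ (N + 1) / 2 → ∀ m ∈ Mw N, 2 * m ≤ N + 1 := by
    intro N hNn m hm
    rw [hMw] at hm
    simp only [mem_image, mem_product, mem_range, mem_Ioc, Prod.exists] at hm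
    obtain ⟨m₀, t, ⟨hm₀, ht1, ht2⟩, rfl⟩ := hm
    have h1 : hN N * t ≤ (N + 1) / 2 - n₀ := by
      rw [hhN]
      calc ((N + 1) / 2 - n₀) / (a + K') * t ≤ ((N + 1) / 2 - n₀) / (a + K') * (a + K') := Nat.mul_le_mul_left _ ht2
        _ ≤ _ := Nat.div_mul_le_self _ _
    omega
  have hm_ge : ∀ N : ℕ, n₀ ≤ (N + 1) / 2 → ∀ m ∈ Mw N, (1 - ε₀ / 2) * (N / 2 : ℝ) - (n₀ + a : ℝ) ≤ m := by
    intro N hNn m hm
    rw [hMw] at hm
    simp only [mem_image, mem_product, mem_range, mem_Ioc, Prod.exists] at hm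
    obtain ⟨m₀, t, ⟨hm₀, ht1, ht2⟩, rfl⟩ := hm
    have h1 : (((N + 1) / 2 - n₀ : ℕ) : ℝ) < ((hN N : ℝ) + 1) * ((a : ℝ) + K') := by
      have h2 : (N + 1) / 2 - n₀ < (hN N + 1) * (a + K') := by
        rw [hhN, mul_comm]
        exact Nat.lt_mul_div_succ _ haK
      exact_mod_cast h2
    have h2 : (N / 2 : ℝ) - n₀ ≤ (((N + 1) / 2 - n₀ : ℕ) : ℝ) := by
      rw [Nat.cast_sub hNn]
      have h3 : (N : ℝ) / 2 ≤ (((N + 1) / 2 : ℕ) : ℝ) := by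
        rw [div_le_iff₀ (by norm_num)]
        have : N ≤ (N + 1) / 2 * 2 := by omega
        exact_mod_cast this
      linarith
    have h3 : (a : ℝ) * hN N ≤ ((m₀ + hN N * t : ℕ) : ℝ) := by
      push_cast
      have h4 : (a : ℝ) ≤ t := by exact_mod_cast ht1.le
      have h5 := mul_le_mul_of_nonneg_right h4 (Nat.cast_nonneg (hN N) : (0 : ℝ) ≤ _)
      have h6 : (0 : ℝ) ≤ m₀ := Nat.cast_nonneg _
      linarith
    have h4 : (1 - ε₀ / 2) * ((a : ℝ) + K') ≤ a := by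
      have h5 := ha.1
      rw [div_le_iff₀ hε₀] at h5
      have h6 : 0 ≤ (K' : ℝ) := Nat.cast_nonneg _
      nlinarith
    have h5 : (1 - ε₀ / 2) * ((N / 2 : ℝ) - n₀) ≤ a * (hN N + 1) := by
      have h6 : (1 - ε₀ / 2) * ((N / 2 : ℝ) - n₀) ≤ (1 - ε₀ / 2) * (((hN N : ℝ) + 1) * ((a : ℝ) + K')) :=
        mul_le_mul_of_nonneg_left (h2.trans h1.le) (by linarith)
      have h7 := mul_le_mul_of_nonneg_right h4 (by positivity : (0 : ℝ) ≤ (hN N : ℝ) + 1)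
      linarith
    have h6 : (1 - ε₀ / 2) * (n₀ : ℝ) ≤ n₀ := by
      have : (0 : ℝ) ≤ n₀ := Nat.cast_nonneg _
      nlinarith
    linarith
  -- the growth
  obtain ⟨δ₁, hδ₁⟩ : ∃ δ₁ : ℝ, δ₁ = δ / 8 := ⟨_, rfl⟩
  have hδ₁0 : 0 < δ₁ := by
    rw [hδ₁]
    positivity
  obtain ⟨N₁, hN₁⟩ := growth' ρ hρ1 (K₀ / δ₁ + (2 * C₃ * (Bt * β₀)) / (δ / 2)) (|B₀| / (δ / 2) + K₁ * C₂ / δ₁) (by positivity) κ
  obtain ⟨N₂, hN₂⟩ : ∃ N₂ : ℕ, N₂ = N₁ + 8 * (n₀ + a) + 8 := ⟨_, rfl⟩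
  have hbig : ∀ N : ℕ, N₂ ≤ N → n₀ ≤ (N + 1) / 2 ∧ ∀ m ∈ Mw N, N ≤ 8 * m ∧ 1 ≤ m := by
    intro N hN2
    have h1 : n₀ ≤ (N + 1) / 2 := by omega
    refine ⟨h1, fun m hm => ?_⟩
    have h2 := hm_ge N h1 m hm
    have h3 : (1 / 2 : ℝ) * (N / 2) ≤ (1 - ε₀ / 2) * (N / 2) := mul_le_mul_of_nonneg_right (by linarith) (by positivity)
    have h4 : (8 * (n₀ + a) + 8 : ℝ) ≤ N := by
      have : 8 * (n₀ + a) + 8 ≤ N := by omega
      exact_mod_cast this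
    have h5 : (N : ℝ) ≤ 8 * m := by linarith
    have h6 : N ≤ 8 * m := by exact_mod_cast h5
    exact ⟨h6, by omega⟩
  obtain ⟨c₀, hc₀⟩ : ∃ c₀ : ℝ, c₀ = C * C₃ / δ₁ ^ 2 := ⟨_, rfl⟩
  have hc₀0 : 0 ≤ c₀ := by
    rw [hc₀]
    positivity
  -- the factor `N + 1`
  obtain ⟨c₁, hc₁⟩ : ∃ c₁ : ℝ, ∀ N : ℕ, ((N : ℝ) + 1) ≤ c₁ * (q : ℝ) ^ (ε₀ / 4 * N : ℝ) := by
    have hlog : 0 < Real.log q := Real.log_pos (by linarith)
    obtain ⟨t, ht⟩ : ∃ t : ℝ, t = ε₀ / 4 * Real.log q := ⟨_, rfl⟩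
    have ht0 : 0 < t := by
      rw [ht]
      positivity
    refine ⟨1 + 1 / t, fun N => ?_⟩
    have h1 : (q : ℝ) ^ (ε₀ / 4 * N : ℝ) = Real.exp (t * N) := by
      rw [Real.rpow_def_of_pos hq0, ht]
      congr 1
      ring
    rw [h1]
    have h2 := Real.add_one_le_exp (t * N)
    have h3 : 1 ≤ Real.exp (t * N) := Real.one_le_exp (by positivity)
    have h4 : (N : ℝ) ≤ 1 / t * Real.exp (t * N) := by
      rw [one_div, ← div_eq_inv_mul, le_div_iff₀ ht0]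
      linarith
    linarith
  have hNcard : ∀ N : ℕ, ((Mw N).card : ℝ) ≤ n₀ * K' := by
    intro N
    rw [hMw]
    have h1 : ((range n₀ ×ˢ Ioc a (a + K')).image fun x : ℕ × ℕ => x.1 + hN N * x.2).card ≤ n₀ * K' := by
      refine card_image_le.trans ?_
      rw [card_product, card_range, Nat.card_Ioc]
      simp
    exact_mod_cast h1
  have hc₁1 : 1 ≤ c₁ := by
    have h1 := hc₁ 0
    simp only [Nat.cast_zero, zero_add, mul_zero, Real.rpow_zero, mul_one] at h1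
    exact h1
  obtain ⟨c₂, hc₂⟩ : ∃ c₂ : ℝ, c₂ = c₀ * c₁ * (q : ℝ) ^ ((ε : ℝ) * (n₀ + a)) := ⟨_, rfl⟩
  have hc₂0 : 0 ≤ c₂ := by
    rw [hc₂]
    positivity
  have hε1 : (1 : ℝ) ≤ ε := by exact_mod_cast hε
  refine ⟨n₀ * K' * (2 * c₂) + (q : ℝ) ^ ((ε : ℝ) * N₂), by positivity, ?_⟩
  intro N η hη Γ hΓ hP
  -- the sets of members with large deviations
  obtain ⟨V, hV⟩ : ∃ V : ℕ → ℂ, V = fun m => ∑ b ∈ range (n' + 1), ∑ l ∈ range (ν + 1),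
      (TE w D r ν b l : ℂ) * (((Γ (n' - b) l).map fun g => g ^ m).sum / (((ρ ^ m) ^ (n' - b) : ℝ) : ℂ)) := ⟨_, rfl⟩
  obtain ⟨Ex, hEx⟩ : ∃ Ex : (φ : ℂ →ₗ[ℝ] ℝ) → (m : ℕ) → Finset (Box k M N (Σ a, ι a)), ∀ φ m, Ex φ m = univ.filter fun c : Box k M N (Σ a, ι a) =>
    2 * δ₁ * (Nat.card (Fm m) : ℝ) ^ ε < |∑ x ∈ univ.filter (fun x : Fin M → Fm m => On G x ∧ Gen k x),
      φ (GG w D r ν n' E f Δ (tU η m) x (at' x c)) - φ (V m)| :=
    ⟨fun φ m => univ.filter fun c : Box k M N (Σ a, ι a) =>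
    2 * δ₁ * (Nat.card (Fm m) : ℝ) ^ ε < |∑ x ∈ univ.filter (fun x : Fin M → Fm m => On G x ∧ Gen k x),
      φ (GG w D r ν n' E f Δ (tU η m) x (at' x c)) - φ (V m)|, fun _ _ => rfl⟩
  -- the large values of `N`
  have key : N₂ ≤ N → ∀ c : Box k M N (Σ a, ι a),
      Exc Fm G w D r b ν n' ε E f Δ η P R B₂ (B₀ * (N + 1) ^ κ) (fun s => (c s : MvPolynomial (Fin M) k)) →
      ∃ m ∈ Mw N, c ∈ Ex Complex.reLm m ∪ Ex Complex.imLm m := by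
    intro hNN c hc
    obtain ⟨α, γ, β, β', hα, hL1, hne⟩ := hc
    rw [← hq, ← hρ, ← hQ] at hL1
    by_contra hcon
    push Not at hcon
    apply hne
    refine hwin γ hL1.top hL1.card (hN N) ?_
    intro m₀ hm₀ t ht1 ht2
    have hmem : m₀ + hN N * t ∈ Mw N := by
      rw [hMw]
      simp only [mem_image, mem_product, mem_range, mem_Ioc, Prod.exists]
      exact ⟨m₀, t, ⟨hm₀, ht1, ht2⟩, rfl⟩
    obtain ⟨m, hm⟩ : ∃ m, m = m₀ + hN N * t := ⟨_, rfl⟩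
    rw [← hm] at hmem ⊢
    obtain ⟨h8m, hm1⟩ := (hbig N hNN).2 m hmem
    have hcm := hcon m hmem
    rw [mem_union, not_or, hEx, hEx] at hcm
    simp only [mem_filter, mem_univ, true_and, not_lt] at hcm
    have hlk := link G w D r b ν n' ε hε p C₃ E f Δ c α hα η β₀ hβ₀ m hm1 (hη m hm1) (hfib m hm1)
    rw [hsF m hm1, hcF m hm1, ← hBt, hL1.sum m hm1] at hlk
    rw [hcF m hm1] at hcm
    obtain ⟨s, hs⟩ : ∃ s : ℝ, s = ρ ^ m := ⟨_, rfl⟩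
    have hs0 : 0 < s := by
      rw [hs]
      exact pow_pos hρ0 m
    obtain ⟨W, hWd⟩ : ∃ W : ℝ, W = (((q ^ m : ℕ)) : ℝ) ^ ε := ⟨_, rfl⟩
    have hW0 : 0 < W := by
      rw [hWd]
      have : (0 : ℝ) < ((q ^ m : ℕ) : ℝ) := by
        push_cast
        positivity
      positivity
    have hQm : Q ^ m = s ^ n' * W := by
      rw [hQ, mul_pow, hWd, hs, ← pow_mul, ← pow_mul, ← pow_mul, mul_comm n' m, mul_comm ε m]
      push_cast
      rw [← pow_mul]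
    rw [← hWd] at hcm hlk
    rw [← hs] at hlk
    obtain ⟨U, hU⟩ : ∃ U : ℂ, U = ∑ x ∈ univ.filter (fun x : Fin M → Fm m => On G x ∧ Gen k x), GG w D r ν n' E f Δ (tU η m) x (at' x c) := ⟨_, rfl⟩
    rw [← map_sum, ← map_sum, ← hU] at hcm
    rw [← hU] at hlk
    have hUV : ‖U - V m‖ ≤ 4 * δ₁ * W := by
      have h1 := Complex.norm_le_abs_re_add_abs_im (U - V m)
      have h2 := hcm.1
      have h3 := hcm.2
      simp only [Complex.reLm_coe, Complex.imLm_coe] at h2 h3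
      rw [Complex.sub_re, Complex.sub_im] at h1
      linarith
    have hPm : (P.map fun g => g ^ m).sum = ((s ^ n' : ℝ) : ℂ) * V m := by
      rw [← hP, PP_sum w D r ν n' ρ Γ m hρ0, hV, hs]
    have hgr := hN₁ N (by omega) m h8m
    rw [← hs] at hgr
    have hlow : ‖(β.map fun g => g ^ m).sum‖ + ‖(β'.map fun g => g ^ m).sum‖ ≤ |B₀| * ((N : ℝ) + 1) ^ κ * (Q ^ m / s) := by
      have hR' : 0 ≤ Q / Real.sqrt q := by positivity
      have h1 := norm_sum_pow β (Q / Real.sqrt q) hR' (fun g hg => hL1.low g (Multiset.mem_add.2 (Or.inl hg))) m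
      have h2 := norm_sum_pow β' (Q / Real.sqrt q) hR' (fun g hg => hL1.low g (Multiset.mem_add.2 (Or.inr hg))) m
      have h3 : (Q / Real.sqrt q) ^ m = Q ^ m / s := by
        rw [div_pow, ← hρ, hs]
      rw [h3] at h1 h2
      have h4 := hL1.num
      rw [Multiset.card_add] at h4
      push_cast at h4
      have h5 : B₀ * ((N : ℝ) + 1) ^ κ ≤ |B₀| * ((N : ℝ) + 1) ^ κ := mul_le_mul_of_nonneg_right (le_abs_self _) (by positivity)
      have h6 : 0 ≤ Q ^ m / s := by positivity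
      calc _ ≤ (β.card : ℝ) * (Q ^ m / s) + (β'.card : ℝ) * (Q ^ m / s) := add_le_add h1 h2
        _ = ((β.card : ℝ) + β'.card) * (Q ^ m / s) := by ring
        _ ≤ _ := mul_le_mul_of_nonneg_right (by linarith) h6
    -- the difference
    have e1 : ‖(γ.map fun g => g ^ m).sum - (P.map fun g => g ^ m).sum‖ ≤ δ * Q ^ m := by
      have h1 : (γ.map fun g => g ^ m).sum - (P.map fun g => g ^ m).sum =
          ((γ.map fun g => g ^ m).sum + (β.map fun g => g ^ m).sum - (β'.map fun g => g ^ m).sum - ((s ^ n' : ℝ) : ℂ) * U) +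
          ((s ^ n' : ℝ) : ℂ) * (U - V m) - (β.map fun g => g ^ m).sum + (β'.map fun g => g ^ m).sum := by
        rw [hPm]
        ring
      rw [h1]
      have h2 : ‖((s ^ n' : ℝ) : ℂ) * (U - V m)‖ ≤ 4 * δ₁ * Q ^ m := by
        rw [norm_mul, Complex.norm_real, Real.norm_of_nonneg (by positivity), hQm]
        calc s ^ n' * ‖U - V m‖ ≤ s ^ n' * (4 * δ₁ * W) := mul_le_mul_of_nonneg_left hUV (by positivity)
          _ = _ := by ring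
      have h3 : s ^ n' * (2 * C₃ * (W / s) * (Bt * β₀)) = (2 * C₃ * (Bt * β₀)) * (Q ^ m / s) := by
        rw [hQm]
        ring
      rw [h3] at hlk
      have h4 : (2 * C₃ * (Bt * β₀)) * (Q ^ m / s) + |B₀| * ((N : ℝ) + 1) ^ κ * (Q ^ m / s) ≤ δ / 2 * Q ^ m := by
        have h5 : (2 * C₃ * (Bt * β₀)) + |B₀| * ((N : ℝ) + 1) ^ κ ≤ δ / 2 * s := by
          have h6 : 0 ≤ K₀ / δ₁ := by positivity
          have h7' : 0 ≤ K₁ * C₂ / δ₁ * ((N : ℝ) + 1) ^ κ := by positivity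
          have h7 : (2 * C₃ * (Bt * β₀)) / (δ / 2) + |B₀| / (δ / 2) * ((N : ℝ) + 1) ^ κ ≤ s := by
            rw [add_mul] at hgr
            linarith
          have h8 := mul_le_mul_of_nonneg_left h7 (by positivity : 0 ≤ δ / 2)
          refine le_trans (le_of_eq ?_) h8
          field_simp
        calc _ = ((2 * C₃ * (Bt * β₀)) + |B₀| * ((N : ℝ) + 1) ^ κ) * (Q ^ m / s) := by ring
          _ ≤ (δ / 2 * s) * (Q ^ m / s) := mul_le_mul_of_nonneg_right h5 (by positivity)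
          _ = _ := by field_simp
      refine (norm_add_le _ _).trans ?_
      refine (add_le_add_left (norm_sub_le _ _) _).trans ?_
      refine (add_le_add_left (add_le_add_left (norm_add_le _ _) _) _).trans ?_
      rw [hδ₁] at h2
      linarith
    have e2 : dif Q γ P m = ((γ.map fun g => g ^ m).sum - (P.map fun g => g ^ m).sum) / (Q : ℂ) ^ m := by
      have h1 : ∀ γ : Multiset ℂ, (γ.map fun g => (g / (Q : ℂ)) ^ m).sum = (γ.map fun g => g ^ m).sum / (Q : ℂ) ^ m := by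
        intro γ
        have h2 : (γ.map fun g => (g / (Q : ℂ)) ^ m) = γ.map fun g => g ^ m * ((Q : ℂ) ^ m)⁻¹ :=
          Multiset.map_congr rfl fun g _ => by rw [div_pow, div_eq_mul_inv]
        rw [h2, Multiset.sum_map_mul_right, div_eq_mul_inv]
      unfold dif
      rw [h1, h1, sub_div]
    rw [e2, norm_div, norm_pow, Complex.norm_real, Real.norm_of_nonneg hQ0.le, div_le_iff₀ (pow_pos hQ0 m)]
    exact e1
  -- the number of the exceptional members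
  have hexp : (Nat.card {c : Box k M N (Σ a, ι a) // Exc Fm G w D r b ν n' ε E f Δ η P R B₂
        (B₀ * (N + 1) ^ κ) (fun s => (c s : MvPolynomial (Fin M) k))} : ℝ) =
      ((univ.filter fun c : Box k M N (Σ a, ι a) => Exc Fm G w D r b ν n' ε E f Δ η P R B₂
        (B₀ * (N + 1) ^ κ) (fun s => (c s : MvPolynomial (Fin M) k))).card : ℝ) := by
    rw [Nat.card_eq_fintype_card, Fintype.card_subtype]
  -- one deviation
  have hone : ∀ φ : ℂ →ₗ[ℝ] ℝ, (∀ z, |φ z| ≤ ‖z‖) → N₂ ≤ N → ∀ m ∈ Mw N,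
      ((Ex φ m).card : ℝ) * (q : ℝ) ^ (ε * m) ≤ C * C₃ / δ₁ ^ 2 * (N + 1) * Fintype.card (Box k M N (Σ a, ι a)) := by
    intro φ hφ hNN m hm
    obtain ⟨hNn, hb2⟩ := hbig N hNN
    obtain ⟨h8m, hm1⟩ := hb2 m hm
    have h2m := hm_le N hNn m hm
    obtain ⟨s, hs⟩ : ∃ s : ℝ, s = ρ ^ m := ⟨_, rfl⟩
    have hs0 : 0 < s := by
      rw [hs]
      exact pow_pos hρ0 m
    have hv : ∀ j ≤ n', ∀ l ≤ ν, ‖∑ x ∈ univ.filter (fun x : Fin M → Fm m => On G x ∧ map (ev x) Δ ≠ 0),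
        ((((zeros (ev x) (E ∪ Set.range h) : ℝ) / Real.sqrt (Nat.card (Fm m)) ^ D : ℝ) : ℂ) ^ l * tU η m j x) -
          (((Γ j l).map fun g => g ^ m).sum / (((ρ ^ m) ^ j : ℝ) : ℂ))‖ ≤
      C₂ * ((N : ℝ) + 1) ^ κ * ((Nat.card (Fm m) : ℝ) ^ ε / Real.sqrt (Nat.card (Fm m))) := by
      intro j hj l hl
      have h1 := hΓ m hm1 j hj l hl
      rw [hsF m hm1, ← hs] at h1 ⊢
      have hsc : (((s ^ j : ℝ)) : ℂ) ≠ 0 := by
        have : (0 : ℝ) < s ^ j := by positivity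
        exact_mod_cast this.ne'
      have h2 : ∑ x ∈ univ.filter (fun x : Fin M → Fm m => On G x ∧ map (ev x) Δ ≠ 0),
          ((((zeros (ev x) (E ∪ Set.range h) : ℝ) / s ^ D : ℝ) : ℂ) ^ l * tU η m j x) -
          (((Γ j l).map fun g => g ^ m).sum / ((s ^ j : ℝ) : ℂ)) =
        (∑ x ∈ univ.filter (fun x : Fin M → Fm m => On G x ∧ map (ev x) Δ ≠ 0),
          ((((zeros (ev x) (E ∪ Set.range h) : ℝ) / s ^ D : ℝ) : ℂ) ^ l * (η m x j).sum) - ((Γ j l).map fun g => g ^ m).sum) / ((s ^ j : ℝ) : ℂ) := by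
        rw [sub_div, sum_div]
        congr 1
        refine sum_congr rfl fun x _ => ?_
        unfold tU
        rw [hsF m hm1, ← hs]
        ring
      rw [h2, norm_div, Complex.norm_real, Real.norm_of_nonneg (by positivity), div_le_iff₀ (by positivity)]
      refine h1.trans (le_of_eq ?_)
      ring
    obtain ⟨hav1, hav2⟩ := hav (C₂ * ((N : ℝ) + 1) ^ κ) (by positivity) (F := Fm m) φ (tU η m) (fun j l => ((Γ j l).map fun g => g ^ m).sum / (((ρ ^ m) ^ j : ℝ) : ℂ)) hφ (hfib m hm1)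
      (hW m hm1) (hZ m hm1) (hη m hm1) hv
    have hgr := hN₁ N (by omega) m h8m
    have hKs : (K₀ + K₁ * (C₂ * ((N : ℝ) + 1) ^ κ)) / s ≤ δ₁ := by
      rw [div_le_iff₀ hs0, ← div_le_iff₀' hδ₁0]
      rw [← hs, add_mul] at hgr
      have h1 : 0 ≤ (2 * C₃ * (Bt * β₀)) / (δ / 2) := by positivity
      have h2 : 0 ≤ |B₀| / (δ / 2) * ((N : ℝ) + 1) ^ κ := by positivity
      have h3 : (K₀ + K₁ * (C₂ * ((N : ℝ) + 1) ^ κ)) / δ₁ = K₀ / δ₁ + K₁ * C₂ / δ₁ * ((N : ℝ) + 1) ^ κ := by ring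
      rw [h3]
      linarith
    have hW0 : (0 : ℝ) < (Nat.card (Fm m) : ℝ) ^ ε := by
      rw [hcF m hm1]
      push_cast
      positivity
    have h3 := chebyshev (N := N) (S := Σ a, ι a) (univ.filter (fun x : Fin M → Fm m => On G x ∧ Gen k x)) (fun x hx => (mem_filter.1 hx).2.2)
      (fun x u => φ (GG w D r ν n' E f Δ (tU η m) x u)) C hC (fun x hx => hav1 x (mem_filter.1 hx).2.1 (mem_filter.1 hx).2.2)
      (by rw [hF m hm1]; exact h2m) ((Nat.card (Fm m) : ℝ) ^ ε) C₃ (φ (V m)) δ₁ hW0 hδ₁0 (by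
        have h4 := card_on G p C₃ (hfib m hm1)
        rw [← Nat.card_eq_fintype_card] at h4
        refine le_trans (Nat.cast_le.2 (card_le_card fun x hx => ?_)) h4
        rw [mem_filter] at hx ⊢
        exact ⟨mem_univ _, hx.2.1⟩) (by
        rw [hV]
        refine hav2.trans ?_
        rw [hsF m hm1, ← hs]
        calc (K₀ + K₁ * (C₂ * ((N : ℝ) + 1) ^ κ)) * ((Nat.card (Fm m) : ℝ) ^ ε / s) =
              (K₀ + K₁ * (C₂ * ((N : ℝ) + 1) ^ κ)) / s * (Nat.card (Fm m) : ℝ) ^ ε := by ring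
          _ ≤ _ := mul_le_mul_of_nonneg_right hKs hW0.le)
    rw [hF m hm1] at h3
    have h4 : ((Ex φ m).card : ℝ) * (Nat.card (Fm m) : ℝ) ^ ε ≤ C * C₃ / δ₁ ^ 2 * (m : ℝ) * Fintype.card (Box k M N (Σ a, ι a)) := by
      rw [hEx]
      exact h3
    have h5 : (Nat.card (Fm m) : ℝ) ^ ε = (q : ℝ) ^ (ε * m) := by
      rw [hcF m hm1]
      push_cast
      rw [← pow_mul, mul_comm]
    rw [h5] at h4
    refine h4.trans ?_
    refine mul_le_mul_of_nonneg_right (mul_le_mul_of_nonneg_left ?_ (by positivity)) (Nat.cast_nonneg _)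
    have : m ≤ N + 1 := by omega
    exact_mod_cast this
  have htwo : ∀ φ : ℂ →ₗ[ℝ] ℝ, (∀ z, |φ z| ≤ ‖z‖) → N₂ ≤ N → ∀ m ∈ Mw N,
      ((Ex φ m).card : ℝ) * (q : ℝ) ^ ((1 - ε₀) * (ε * N / 2 : ℝ)) ≤ c₂ * Fintype.card (Box k M N (Σ a, ι a)) := by
    intro φ hφ hNN m hm
    have h1 := hone φ hφ hNN m hm
    rw [← hc₀] at h1
    have h2 := hm_ge N (hbig N hNN).1 m hm
    have h3 : (q : ℝ) ^ ((1 - ε₀) * (ε * N / 2 : ℝ)) * ((N : ℝ) + 1) ≤ (q : ℝ) ^ (ε * m) * (c₁ * (q : ℝ) ^ ((ε : ℝ) * (n₀ + a))) := by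
      have h4 : (q : ℝ) ^ ((1 - ε₀) * (ε * N / 2 : ℝ)) * (q : ℝ) ^ (ε₀ / 4 * N : ℝ) ≤ (q : ℝ) ^ (ε * m) * (q : ℝ) ^ ((ε : ℝ) * (n₀ + a)) := by
        rw [← Real.rpow_natCast, ← Real.rpow_add hq0, ← Real.rpow_add hq0]
        refine Real.rpow_le_rpow_of_exponent_le hq1 ?_
        push_cast
        have h5 := mul_le_mul_of_nonneg_left h2 (by linarith : (0 : ℝ) ≤ ε)
        have h6 : ε₀ / 4 * (N : ℝ) ≤ ε * (ε₀ / 4 * N) := le_mul_of_one_le_left (by positivity) hε1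
        nlinarith
      calc (q : ℝ) ^ ((1 - ε₀) * (ε * N / 2 : ℝ)) * ((N : ℝ) + 1) ≤ (q : ℝ) ^ ((1 - ε₀) * (ε * N / 2 : ℝ)) * (c₁ * (q : ℝ) ^ (ε₀ / 4 * N : ℝ)) :=
            mul_le_mul_of_nonneg_left (hc₁ N) (by positivity)
        _ = c₁ * ((q : ℝ) ^ ((1 - ε₀) * (ε * N / 2 : ℝ)) * (q : ℝ) ^ (ε₀ / 4 * N : ℝ)) := by ring
        _ ≤ c₁ * ((q : ℝ) ^ (ε * m) * (q : ℝ) ^ ((ε : ℝ) * (n₀ + a))) := mul_le_mul_of_nonneg_left h4 (by linarith)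
        _ = _ := by ring
    have hqm : 0 < (q : ℝ) ^ (ε * m) := by positivity
    have h4 : (((Ex φ m).card : ℝ) * (q : ℝ) ^ ((1 - ε₀) * (ε * N / 2 : ℝ))) * ((q : ℝ) ^ (ε * m)) ≤
        (c₂ * Fintype.card (Box k M N (Σ a, ι a))) * ((q : ℝ) ^ (ε * m)) := by
      calc (((Ex φ m).card : ℝ) * (q : ℝ) ^ ((1 - ε₀) * (ε * N / 2 : ℝ))) * ((q : ℝ) ^ (ε * m)) =
            (((Ex φ m).card : ℝ) * (q : ℝ) ^ (ε * m)) * (q : ℝ) ^ ((1 - ε₀) * (ε * N / 2 : ℝ)) := by ring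
        _ ≤ (c₀ * (N + 1) * Fintype.card (Box k M N (Σ a, ι a))) * (q : ℝ) ^ ((1 - ε₀) * (ε * N / 2 : ℝ)) :=
            mul_le_mul_of_nonneg_right h1 (by positivity)
        _ = c₀ * Fintype.card (Box k M N (Σ a, ι a)) * ((q : ℝ) ^ ((1 - ε₀) * (ε * N / 2 : ℝ)) * ((N : ℝ) + 1)) := by ring
        _ ≤ c₀ * Fintype.card (Box k M N (Σ a, ι a)) * ((q : ℝ) ^ (ε * m) * (c₁ * (q : ℝ) ^ ((ε : ℝ) * (n₀ + a)))) :=
            mul_le_mul_of_nonneg_left h3 (by positivity)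
        _ = _ := by
          rw [hc₂]
          ring
    exact le_of_mul_le_mul_right h4 hqm
  rw [hexp, Nat.card_eq_fintype_card (α := Box k M N (Σ a, ι a))]
  obtain ⟨g, hg⟩ : ∃ g : ℝ, g = Fintype.card (Box k M N (Σ a, ι a)) := ⟨_, rfl⟩
  have hg0 : 0 ≤ g := by
    rw [hg]
    exact Nat.cast_nonneg _
  have htwo' : ∀ φ : ℂ →ₗ[ℝ] ℝ, (∀ z, |φ z| ≤ ‖z‖) → N₂ ≤ N → ∀ m ∈ Mw N,
      ((Ex φ m).card : ℝ) * (q : ℝ) ^ ((1 - ε₀) * (ε * N / 2 : ℝ)) ≤ c₂ * g := by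
    intro φ hφ hNN m hm
    rw [hg]
    exact htwo φ hφ hNN m hm
  rw [← hg]
  by_cases hNN : N₂ ≤ N
  · have h1 : (univ.filter fun c : Box k M N (Σ a, ι a) => Exc Fm G w D r b ν n' ε E f Δ η P R B₂
        (B₀ * (N + 1) ^ κ) (fun s => (c s : MvPolynomial (Fin M) k))) ⊆ (Mw N).biUnion fun m => Ex Complex.reLm m ∪ Ex Complex.imLm m := by
      intro c hc
      rw [mem_filter] at hc
      obtain ⟨m, hm1, hm2⟩ := key hNN c hc.2
      exact mem_biUnion.2 ⟨m, hm1, hm2⟩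
    have h2 : ((univ.filter fun c : Box k M N (Σ a, ι a) => Exc Fm G w D r b ν n' ε E f Δ η P R B₂
        (B₀ * (N + 1) ^ κ) (fun s => (c s : MvPolynomial (Fin M) k))).card : ℝ) ≤
        ∑ m ∈ Mw N, (((Ex Complex.reLm m).card : ℝ) + ((Ex Complex.imLm m).card : ℝ)) := by
      have h3 : (univ.filter fun c : Box k M N (Σ a, ι a) => Exc Fm G w D r b ν n' ε E f Δ η P R B₂
        (B₀ * (N + 1) ^ κ) (fun s => (c s : MvPolynomial (Fin M) k))).card ≤ ∑ m ∈ Mw N, ((Ex Complex.reLm m).card + (Ex Complex.imLm m).card) :=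
        (card_le_card h1).trans (card_biUnion_le.trans (sum_le_sum fun m _ => card_union_le _ _))
      exact_mod_cast h3
    refine (mul_le_mul_of_nonneg_right h2 (by positivity)).trans ?_
    rw [sum_mul]
    have h3 : ∀ m ∈ Mw N, (((Ex Complex.reLm m).card : ℝ) + ((Ex Complex.imLm m).card : ℝ)) * (q : ℝ) ^ ((1 - ε₀) * (ε * N / 2 : ℝ)) ≤ 2 * c₂ * g := by
      intro m hm
      have h4 := htwo' Complex.reLm (fun z => by rw [Complex.reLm_coe]; exact Complex.abs_re_le_norm z) hNN m hm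
      have h5 := htwo' Complex.imLm (fun z => by rw [Complex.imLm_coe]; exact Complex.abs_im_le_norm z) hNN m hm
      rw [add_mul]
      linarith
    refine (sum_le_sum h3).trans ?_
    rw [sum_const, nsmul_eq_mul]
    have h4 := mul_le_mul_of_nonneg_right (hNcard N) (by positivity : 0 ≤ 2 * c₂ * g)
    have h5 : 0 ≤ (q : ℝ) ^ ((ε : ℝ) * N₂) * g := by positivity
    linarith
  · have h1 : ((univ.filter fun c : Box k M N (Σ a, ι a) => Exc Fm G w D r b ν n' ε E f Δ η P R B₂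
        (B₀ * (N + 1) ^ κ) (fun s => (c s : MvPolynomial (Fin M) k))).card : ℝ) ≤ g := by
      rw [hg]
      exact_mod_cast card_le_univ _
    have h2 : (q : ℝ) ^ ((1 - ε₀) * (ε * N / 2 : ℝ)) ≤ (q : ℝ) ^ ((ε : ℝ) * N₂) := by
      refine Real.rpow_le_rpow_of_exponent_le hq1 ?_
      have h3 : (N : ℝ) ≤ N₂ := by
        have : N ≤ N₂ := by omega
        exact_mod_cast this
      have h4 : (ε : ℝ) * N ≤ ε * N₂ := mul_le_mul_of_nonneg_left h3 (by linarith)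
      have h5 : 0 ≤ (ε : ℝ) * N := by positivity
      nlinarith
    have h3 := mul_le_mul h1 h2 (by positivity) hg0
    have h4 : 0 ≤ n₀ * K' * (2 * c₂) * g := by positivity
    linarith

end Q282UV
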