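import Pool.Agent.Q282.AE.Var

/-!
# The second moment of a sum over some of the points of a box of polynomials
-/

set_option autoImplicit false
set_option linter.unusedSectionVars false

namespace Q282UV

open Finset MvPolynomial
open Q282GP (av av_add av_sub av_smul av_sum av_const av_nonneg av_mono abs_av)
open Q282AE (Gen idl Box at' uni_one uni_two card_conj)

variable {k : Type} [Field k] [Fintype k] {M N : ℕ} {S : Type} [Fintype S] [DecidableEq S]
  {F : Type} [Field F] [Fintype F] [DecidableEq F] [Algebra k F]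

open Classical in
/-- **The second moment.** -/
theorem second_moment (T : Finset (Fin M → F)) (hT : ∀ x ∈ T, Gen k x) (X : (Fin M → F) → (S → F) → ℝ) (C : ℝ) (hC0 : 0 ≤ C)
    (hC : ∀ x ∈ T, av (fun u => X x u ^ 2) ≤ C) (hN : 2 * Module.finrank k F ≤ N + 1) :
    av (fun c : Box k M N S => (∑ x ∈ T, (X x (at' x c) - av (X x))) ^ 2) ≤ C * Module.finrank k F * T.card := by
  have hfin : Module.Finite k F := Module.Finite.of_finite
  obtain ⟨Y, hY⟩ : ∃ Y : (Fin M → F) → (S → F) → ℝ, Y = fun x u => X x u - av (X x) := ⟨_, rfl⟩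
  have hY0 : ∀ x, av (Y x) = 0 := by
    intro x
    rw [hY]
    show av (fun u => X x u - av (X x)) = 0
    rw [av_sub, av_const, sub_self]
  have hY2 : ∀ x ∈ T, av (fun u => Y x u ^ 2) ≤ C := by
    intro x hx
    have h1 : (fun u => Y x u ^ 2) = fun u => (X x u ^ 2 + (-(2 * av (X x))) * X x u) + (av (X x)) ^ 2 := by
      funext u
      rw [hY]
      ring
    rw [h1, av_add, av_add, av_smul, av_const]
    have h2 := hC x hx
    have h3 : 0 ≤ (av (X x)) ^ 2 := sq_nonneg _
    nlinarith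
  have h1 : (fun c : Box k M N S => (∑ x ∈ T, (X x (at' x c) - av (X x))) ^ 2) =
      fun c => ∑ x ∈ T, ∑ x' ∈ T, Y x (at' x c) * Y x' (at' x' c) := by
    funext c
    rw [sq, sum_mul_sum]
    rw [hY]
  rw [h1, av_sum]
  have h2 : ∀ x ∈ T, av (fun c : Box k M N S => ∑ x' ∈ T, Y x (at' x c) * Y x' (at' x' c)) ≤ C * Module.finrank k F := by
    intro x hx
    rw [av_sum]
    have h3 : ∀ x' ∈ T, av (fun c : Box k M N S => Y x (at' x c) * Y x' (at' x' c)) ≤ if idl k x' = idl k x then C else 0 := by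
      intro x' hx'
      split_ifs with he
      · have h4 : ∀ c : Box k M N S, Y x (at' x c) * Y x' (at' x' c) ≤ (1 / 2) * (Y x (at' x c)) ^ 2 + (1 / 2) * (Y x' (at' x' c)) ^ 2 := by
          intro c
          nlinarith [sq_nonneg (Y x (at' x c) - Y x' (at' x' c))]
        refine (av_mono _ _ h4).trans ?_
        rw [av_add, av_smul, av_smul, uni_one (hT x hx) (by omega) (fun u => Y x u ^ 2), uni_one (hT x' hx') (by omega) (fun u => Y x' u ^ 2)]
        have h5 := hY2 x hx
        have h6 := hY2 x' hx'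
        linarith
      · rw [uni_two (hT x hx) (hT x' hx') (fun h => he h.symm) hN, hY0 x, zero_mul]
    refine (sum_le_sum h3).trans ?_
    rw [← sum_filter, sum_const, nsmul_eq_mul, mul_comm]
    refine mul_le_mul_of_nonneg_left ?_ hC0
    have h4 := card_conj (hT x hx)
    rw [Nat.card_eq_fintype_card, Fintype.card_subtype] at h4
    refine le_trans ?_ (Nat.cast_le.2 h4)
    refine Nat.cast_le.2 (card_le_card ?_)
    intro x' hx'
    rw [mem_filter] at hx' ⊢
    exact ⟨mem_univ _, hx'.2⟩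
  refine (sum_le_sum h2).trans ?_
  rw [sum_const, nsmul_eq_mul, mul_comm]

open Classical in
/-- **The inequality of Chebyshev.** -/
theorem chebyshev (T : Finset (Fin M → F)) (hT : ∀ x ∈ T, Gen k x) (X : (Fin M → F) → (S → F) → ℝ) (C : ℝ) (hC0 : 0 ≤ C)
    (hC : ∀ x ∈ T, av (fun u => X x u ^ 2) ≤ C) (hN : 2 * Module.finrank k F ≤ N + 1) (W C₂ P δ : ℝ) (hW : 0 < W) (hδ : 0 < δ)
    (hTW : (T.card : ℝ) ≤ C₂ * W) (hP : |∑ x ∈ T, av (X x) - P| ≤ δ * W) :
    ((univ.filter fun c : Box k M N S => 2 * δ * W < |∑ x ∈ T, X x (at' x c) - P|).card : ℝ) * W ≤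
      C * C₂ / δ ^ 2 * Module.finrank k F * Fintype.card (Box k M N S) := by
  have h1 := second_moment (N := N) (S := S) T hT X C hC0 hC hN
  unfold av at h1
  have hB0 : (0 : ℝ) < Fintype.card (Box k M N S) := by exact_mod_cast Fintype.card_pos
  rw [div_le_iff₀ hB0] at h1
  have h2 : ∑ c ∈ univ.filter (fun c : Box k M N S => 2 * δ * W < |∑ x ∈ T, X x (at' x c) - P|), (δ * W) ^ 2 ≤
      ∑ c : Box k M N S, (∑ x ∈ T, (X x (at' x c) - (∑ a, X x a) / Fintype.card (S → F))) ^ 2 := by
    refine (sum_le_sum fun c hc => ?_).trans (sum_le_sum_of_subset_of_nonneg (filter_subset _ _) fun _ _ _ => sq_nonneg _)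
    rw [mem_filter] at hc
    have h3 : ∑ x ∈ T, (X x (at' x c) - (∑ a, X x a) / Fintype.card (S → F)) =
        (∑ x ∈ T, X x (at' x c) - P) - (∑ x ∈ T, av (X x) - P) := by
      rw [sum_sub_distrib]
      unfold av
      ring
    rw [h3]
    have h4 : δ * W ≤ |(∑ x ∈ T, X x (at' x c) - P) - (∑ x ∈ T, av (X x) - P)| := by
      have h5 := abs_sub_abs_le_abs_sub (∑ x ∈ T, X x (at' x c) - P) (∑ x ∈ T, av (X x) - P)
      linarith [hc.2]
    rw [← sq_abs (_ - _)]
    exact pow_le_pow_left₀ (by positivity) h4 2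
  rw [sum_const, nsmul_eq_mul] at h2
  have h3 := h2.trans h1
  have h5 : C * (Module.finrank k F : ℝ) * T.card * Fintype.card (Box k M N S) ≤ C * (Module.finrank k F : ℝ) * (C₂ * W) * Fintype.card (Box k M N S) :=
    mul_le_mul_of_nonneg_right (mul_le_mul_of_nonneg_left hTW (by positivity)) hB0.le
  have h4 : ((univ.filter (fun c : Box k M N S => 2 * δ * W < |∑ x ∈ T, X x (at' x c) - P|)).card : ℝ) * W =
      ((univ.filter (fun c : Box k M N S => 2 * δ * W < |∑ x ∈ T, X x (at' x c) - P|)).card : ℝ) * (δ * W) ^ 2 / (δ ^ 2 * W) := by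
    field_simp
  rw [h4, div_le_iff₀ (by positivity)]
  refine (h3.trans h5).trans (le_of_eq ?_)
  field_simp

end Q282UV
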