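import Pool.Agent.Q282.UV.Mean
import Pool.Agent.Q282.UV.Base

/-!
# The averages of the traces on the cohomology of the products with a fixed variety
-/

set_option autoImplicit false
set_option linter.unusedSectionVars false

namespace Q282UV

open Finset MvPolynomial
open Q282GH (zeros Through)
open Q282GP (av av_add av_sub av_smul av_sum av_const av_nonneg av_mono abs_av gen fam oc tt vv oser)
open Q282AE (Gen idl Box at' ev tau)
open Q282OR (XO)

section

variable {k : Type} [Field k] {M n : ℕ} {A : Type} [Fintype A] {ι : A → Type} [∀ a, Fintype (ι a)] {F : Type} [Field F] [Algebra k F]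

/-- the normalised trace on the cohomology of degree `n'` of the product of the `ν`-th power with the fixed variety -/
noncomputable def GG (w : ℕ → ℕ) (D r ν n' : ℕ) (E : Set (MvPolynomial (Fin (n + 1)) (MvPolynomial (Fin M) k)))
    (f : (a : A) → ι a → MvPolynomial (Fin (n + 1)) (MvPolynomial (Fin M) k)) (Δ : MvPolynomial (Σ a, ι a) (MvPolynomial (Fin M) k))
    (τ : ℕ → (Fin M → F) → ℂ) (x : Fin M → F) (u : (Σ a, ι a) → F) : ℂ :=
  ∑ b ∈ range (n' + 1), ((XO w D r ν b E f Δ x u : ℝ) : ℂ) * ((-1) ^ b * τ (n' - b) x)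

lemma XO_zero {w : ℕ → ℕ} {D r ν b : ℕ} {E : Set (MvPolynomial (Fin (n + 1)) (MvPolynomial (Fin M) k))}
    {f : (a : A) → ι a → MvPolynomial (Fin (n + 1)) (MvPolynomial (Fin M) k)} {Δ : MvPolynomial (Σ a, ι a) (MvPolynomial (Fin M) k)}
    {x : Fin M → F} (hx : map (ev x) Δ = 0) (u : (Σ a, ι a) → F) : XO w D r ν b E f Δ x u = 0 := by
  unfold XO
  rw [if_pos]
  rw [← MvPolynomial.eval_map, hx, map_zero]

lemma GG_zero {w : ℕ → ℕ} {D r ν n' : ℕ} {E : Set (MvPolynomial (Fin (n + 1)) (MvPolynomial (Fin M) k))}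
    {f : (a : A) → ι a → MvPolynomial (Fin (n + 1)) (MvPolynomial (Fin M) k)} {Δ : MvPolynomial (Σ a, ι a) (MvPolynomial (Fin M) k)}
    {τ : ℕ → (Fin M → F) → ℂ} {x : Fin M → F} (hx : map (ev x) Δ = 0) (u : (Σ a, ι a) → F) : GG w D r ν n' E f Δ τ x u = 0 := by
  unfold GG
  refine sum_eq_zero fun b _ => ?_
  rw [XO_zero hx, Complex.ofReal_zero, zero_mul]

lemma phi_mul (φ : ℂ →ₗ[ℝ] ℝ) (t : ℝ) (z : ℂ) : φ ((t : ℂ) * z) = t * φ z := by
  have h : (t : ℂ) * z = t • z := (Complex.real_smul).symm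
  rw [h, map_smul, smul_eq_mul]

lemma phi_GG (φ : ℂ →ₗ[ℝ] ℝ) (w : ℕ → ℕ) (D r ν n' : ℕ) (E : Set (MvPolynomial (Fin (n + 1)) (MvPolynomial (Fin M) k)))
    (f : (a : A) → ι a → MvPolynomial (Fin (n + 1)) (MvPolynomial (Fin M) k)) (Δ : MvPolynomial (Σ a, ι a) (MvPolynomial (Fin M) k))
    (τ : ℕ → (Fin M → F) → ℂ) (x : Fin M → F) (u : (Σ a, ι a) → F) :
    φ (GG w D r ν n' E f Δ τ x u) = ∑ b ∈ range (n' + 1), φ ((-1) ^ b * τ (n' - b) x) * XO w D r ν b E f Δ x u := by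
  unfold GG
  rw [map_sum]
  refine sum_congr rfl fun b _ => ?_
  rw [phi_mul, mul_comm]

end

variable {k : Type} [Field k] [Fintype k] {M n : ℕ} {A : Type} [Fintype A] [DecidableEq A] {ι : A → Type} [∀ a, Fintype (ι a)]
  [∀ a, DecidableEq (ι a)]

open Classical in
/-- **The averages over the boxes.** -/
theorem averages (D : ℕ) (hD : 1 ≤ D) (r : ℕ) (hr : 1 ≤ r) (hA : Fintype.card A = r) (w : ℕ → ℕ) (hw : w (D + r) = 1) (C₀ C₁ : ℝ)
    (ν : ℕ) (hν : 1 ≤ ν) (n' : ℕ) {J : Type} {h : J → MvPolynomial (Fin (n + 1)) (MvPolynomial (Fin M) k)} {e : J → ℕ} {d : A → ℕ}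
    {f : (a : A) → ι a → MvPolynomial (Fin (n + 1)) (MvPolynomial (Fin M) k)} (hh : ∀ j, (h j).IsHomogeneous (e j))
    (hd : ∀ j a, e j + 2 * ν ≤ d a + 1) (hf : ∀ a, Through h (d a) (f a)) (E : Set (MvPolynomial (Fin (n + 1)) (MvPolynomial (Fin M) k)))
    (Δ : MvPolynomial (Σ a, ι a) (MvPolynomial (Fin M) k)) (G : Set (MvPolynomial (Fin M) k)) (ε : ℕ) (hε : 1 ≤ ε) (p : Fin ε → MvPolynomial (Fin M) k)
    (C₃ : ℕ) (β : ℝ) (hβ : 0 ≤ β) :
    ∃ K₀ K₁ C : ℝ, 0 ≤ K₀ ∧ 0 ≤ K₁ ∧ 0 ≤ C ∧ ∀ (C₂ : ℝ), 0 ≤ C₂ → ∀ {F : Type} [Field F] [Fintype F] [Algebra k F] (φ : ℂ →ₗ[ℝ] ℝ) (τ : ℕ → (Fin M → F) → ℂ) (v : ℕ → ℕ → ℂ),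
      (∀ z, |φ z| ≤ ‖z‖) →
      (∀ y : Fin ε → F, Nat.card {x : Fin M → F // On G x ∧ ∀ i, aeval x (p i) = y i} ≤ C₃) →
      (∀ x : Fin M → F, On G x → map (ev x) Δ ≠ 0 → |(zeros (ev x) E : ℝ) - ∑ j ∈ range (D + r + 1), w j * (Nat.card F : ℝ) ^ j| ≤
        C₀ * Real.sqrt (Nat.card F) ^ (2 * r + D - 1)) →
      (∀ x : Fin M → F, On G x → map (ev x) Δ ≠ 0 → (zeros (ev x) (E ∪ Set.range h) : ℝ) ≤ C₁ * (Nat.card F : ℝ) ^ (D / 2)) →
      (∀ j ≤ n', ∀ x : Fin M → F, On G x → map (ev x) Δ ≠ 0 → ‖τ j x‖ ≤ β) →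
      (∀ j ≤ n', ∀ l ≤ ν, ‖∑ x ∈ univ.filter (fun x : Fin M → F => On G x ∧ map (ev x) Δ ≠ 0),
          ((((zeros (ev x) (E ∪ Set.range h) : ℝ) / Real.sqrt (Nat.card F) ^ D : ℝ) : ℂ) ^ l * τ j x) - v j l‖ ≤
        C₂ * ((Nat.card F : ℝ) ^ ε / Real.sqrt (Nat.card F))) →
      (∀ x : Fin M → F, On G x → Gen k x → av (fun u => (φ (GG w D r ν n' E f Δ τ x u)) ^ 2) ≤ C) ∧
      |∑ x ∈ univ.filter (fun x : Fin M → F => On G x ∧ Gen k x), av (fun u => φ (GG w D r ν n' E f Δ τ x u)) -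
          φ (∑ b ∈ range (n' + 1), ∑ l ∈ range (ν + 1), (TE w D r ν b l : ℂ) * v (n' - b) l)| ≤
        (K₀ + K₁ * C₂) * ((Nat.card F : ℝ) ^ ε / Real.sqrt (Nat.card F)) := by
  obtain ⟨K, hK0, hK⟩ := means D hD r hr hA w hw C₀ C₁ ν hν n' hh hd hf E Δ
  obtain ⟨c₃, hc₃⟩ : ∃ c₃ : ℝ, c₃ = ∑ b ∈ range (n' + 1), ∑ l ∈ range (ν + 1), (TE w D r ν b l : ℝ) := ⟨_, rfl⟩
  have hc₃0 : 0 ≤ c₃ := by
    rw [hc₃]
    positivity
  obtain ⟨Z₁, hZ₁⟩ : ∃ Z₁ : ℝ, Z₁ = (1 + |C₁|) ^ ν := ⟨_, rfl⟩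
  have hZ₁0 : 0 ≤ Z₁ := by
    rw [hZ₁]
    positivity
  refine ⟨((n' + 1 : ℕ) : ℝ) * β * K * C₃ + c₃ * Z₁ * β * (2 * C₃), c₃, ((n' + 1 : ℕ) : ℝ) * (((n' + 1 : ℕ) : ℝ) * (β ^ 2 * K)),
    by positivity, hc₃0, by positivity, ?_⟩
  intro C₂ hC₂ F _ _ _ φ τ v hφ hfib hW hZ hτ hv
  have hcardF : Nat.card F = Fintype.card F := Nat.card_eq_fintype_card
  have hp0 : (0 : ℝ) < Fintype.card F := Q282AE.card_pos
  have hp1 : (1 : ℝ) ≤ Fintype.card F := Q282AE.card_one
  obtain ⟨s, hs⟩ : ∃ s : ℝ, s = Real.sqrt (Nat.card F) := ⟨_, rfl⟩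
  have hs1 : 1 ≤ s := by
    rw [hs, hcardF]
    exact Real.one_le_sqrt.2 hp1
  have hs0 : 0 < s := by linarith
  have hsp : (Nat.card F : ℝ) = s ^ 2 := by
    rw [hs, Real.sq_sqrt (by rw [hcardF]; exact hp0.le)]
  obtain ⟨W, hWd⟩ : ∃ W : ℝ, W = (Nat.card F : ℝ) ^ ε := ⟨_, rfl⟩
  have hW0 : 0 < W := by
    rw [hWd, hcardF]
    positivity
  obtain ⟨ζ, hζ⟩ : ∃ ζ : (Fin M → F) → ℝ, ζ = fun x => (zeros (ev x) (E ∪ Set.range h) : ℝ) / s ^ D := ⟨_, rfl⟩
  have hmean : ∀ x : Fin M → F, On G x → Gen k x → map (ev x) Δ ≠ 0 → ∀ b ≤ n',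
      |av (XO w D r ν b E f Δ x) - ∑ l ∈ range (ν + 1), (TE w D r ν b l : ℝ) * ζ x ^ l| ≤ K / s ∧ av (fun u => XO w D r ν b E f Δ x u ^ 2) ≤ K := by
    intro x hx hg hΔ b hb
    have h1 := hK x hg hΔ (hW x hx hΔ) (hZ x hx hΔ) b hb
    rw [← hs] at h1
    rw [hζ]
    exact h1
  have hφ1 : ∀ b ≤ n', ∀ x : Fin M → F, On G x → map (ev x) Δ ≠ 0 → |φ ((-1) ^ b * τ (n' - b) x)| ≤ β := by
    intro b hb x hx hΔ
    refine (hφ _).trans ?_
    rw [norm_mul, norm_pow, norm_neg, norm_one, one_pow, one_mul]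
    exact hτ (n' - b) (by omega) x hx hΔ
  rw [← hs, ← hWd] at hv ⊢
  refine ⟨?_, ?_⟩
  · intro x hx hg
    by_cases hΔ : map (ev x) Δ = 0
    · have h1 : (fun u : (Σ a, ι a) → F => (φ (GG w D r ν n' E f Δ τ x u)) ^ 2) = fun _ => 0 := by
        funext u
        rw [GG_zero hΔ, map_zero]
        norm_num
      rw [h1, av_const]
      positivity
    · have h1 : ∀ u : (Σ a, ι a) → F, (φ (GG w D r ν n' E f Δ τ x u)) ^ 2 ≤
          ((n' + 1 : ℕ) : ℝ) * ∑ b ∈ range (n' + 1), β ^ 2 * (XO w D r ν b E f Δ x u) ^ 2 := by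
        intro u
        rw [phi_GG]
        have h2 := sq_sum_le_card_mul_sum_sq (s := range (n' + 1)) (f := fun b => φ ((-1) ^ b * τ (n' - b) x) * XO w D r ν b E f Δ x u)
        rw [card_range] at h2
        refine h2.trans (mul_le_mul_of_nonneg_left (sum_le_sum fun b hb => ?_) (Nat.cast_nonneg _))
        rw [mem_range] at hb
        rw [mul_pow]
        refine mul_le_mul_of_nonneg_right ?_ (sq_nonneg _)
        rw [← sq_abs]
        exact pow_le_pow_left₀ (abs_nonneg _) (hφ1 b (by omega) x hx hΔ) 2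
      refine (av_mono _ _ h1).trans ?_
      rw [av_smul, av_sum]
      refine mul_le_mul_of_nonneg_left ?_ (Nat.cast_nonneg _)
      refine (sum_le_sum (g := fun _ => β ^ 2 * K) fun b hb => ?_).trans (le_of_eq ?_)
      · rw [mem_range] at hb
        rw [av_smul]
        exact mul_le_mul_of_nonneg_left (hmean x hx hg hΔ b (by omega)).2 (sq_nonneg _)
      · rw [sum_const, card_range, nsmul_eq_mul]
  · obtain ⟨Y, hY⟩ : ∃ Y : (Fin M → F) → ℂ, Y = fun x => if map (ev x) Δ = 0 then 0 else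
      ∑ b ∈ range (n' + 1), ∑ l ∈ range (ν + 1), (TE w D r ν b l : ℂ) * (((ζ x : ℝ) : ℂ) ^ l * τ (n' - b) x) := ⟨_, rfl⟩
    have h1 : ∀ x : Fin M → F, On G x → Gen k x → |av (fun u => φ (GG w D r ν n' E f Δ τ x u)) - φ (Y x)| ≤ ((n' + 1 : ℕ) : ℝ) * β * K / s := by
      intro x hx hg
      by_cases hΔ : map (ev x) Δ = 0
      · have h2 : (fun u => φ (GG w D r ν n' E f Δ τ x u)) = fun _ => 0 := funext fun u => by rw [GG_zero hΔ, map_zero]
        rw [h2, av_const, hY]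
        simp only [hΔ, if_true, map_zero, sub_zero, abs_zero]
        positivity
      · have h2 : (fun u => φ (GG w D r ν n' E f Δ τ x u)) = fun u => ∑ b ∈ range (n' + 1), φ ((-1) ^ b * τ (n' - b) x) * XO w D r ν b E f Δ x u :=
          funext fun u => phi_GG φ w D r ν n' E f Δ τ x u
        rw [h2, av_sum]
        have h3 : φ (Y x) = ∑ b ∈ range (n' + 1), φ ((-1) ^ b * τ (n' - b) x) * ∑ l ∈ range (ν + 1), (TE w D r ν b l : ℝ) * ζ x ^ l := by
          rw [hY]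
          simp only [hΔ, if_false]
          rw [map_sum]
          refine sum_congr rfl fun b _ => ?_
          rw [map_sum, mul_sum]
          refine sum_congr rfl fun l _ => ?_
          have h4 : (TE w D r ν b l : ℂ) * (((ζ x : ℝ) : ℂ) ^ l * τ (n' - b) x) = (((TE w D r ν b l : ℝ) * ζ x ^ l : ℝ) : ℂ) * τ (n' - b) x := by
            push_cast
            ring
          rw [h4, phi_mul]
          rcases Nat.even_or_odd b with hb | hb
          · rw [hb.neg_one_pow, one_mul]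
            ring
          · unfold TE
            rw [if_neg (Nat.not_even_iff_odd.2 hb), Nat.cast_zero, zero_mul, zero_mul, mul_zero]
        rw [h3, ← sum_sub_distrib]
        refine (abs_sum_le_sum_abs _ _).trans ?_
        refine (sum_le_sum (g := fun _ => β * (K / s)) fun b hb => ?_).trans (le_of_eq ?_)
        · rw [mem_range] at hb
          rw [av_smul, ← mul_sub, abs_mul]
          exact mul_le_mul (hφ1 b (by omega) x hx hΔ) (hmean x hx hg hΔ b (by omega)).1 (abs_nonneg _) hβ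
        · rw [sum_const, card_range, nsmul_eq_mul]
          ring
    have hζ1 : ∀ x : Fin M → F, On G x → map (ev x) Δ ≠ 0 → 0 ≤ ζ x ∧ ζ x ≤ |C₁| := by
      intro x hx hΔ
      rw [hζ]
      refine ⟨by positivity, ?_⟩
      simp only
      rw [div_le_iff₀ (by positivity)]
      refine (hZ x hx hΔ).trans ?_
      rw [hsp, ← pow_mul]
      refine mul_le_mul (le_abs_self _) (pow_le_pow_right₀ hs1 (by omega)) (by positivity) (abs_nonneg _)
    have hYb : ∀ x : Fin M → F, On G x → ‖Y x‖ ≤ c₃ * Z₁ * β := by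
      intro x hx
      rw [hY]
      simp only
      split_ifs with hΔ
      · rw [norm_zero]
        positivity
      · rw [hc₃, sum_mul, sum_mul]
        refine (norm_sum_le _ _).trans (sum_le_sum fun b hb => ?_)
        rw [mem_range] at hb
        rw [sum_mul, sum_mul]
        refine (norm_sum_le _ _).trans (sum_le_sum fun l hl => ?_)
        rw [mem_range] at hl
        obtain ⟨h3, h4⟩ := hζ1 x hx hΔ
        rw [norm_mul, norm_mul, Complex.norm_natCast, norm_pow, Complex.norm_real, Real.norm_of_nonneg h3, mul_assoc]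
        refine mul_le_mul_of_nonneg_left ?_ (Nat.cast_nonneg _)
        refine mul_le_mul ?_ (hτ _ (by omega) x hx hΔ) (norm_nonneg _) hZ₁0
        have h5 : 0 ≤ |C₁| := abs_nonneg _
        rw [hZ₁]
        exact (pow_le_pow_left₀ h3 (by linarith) l).trans (pow_le_pow_right₀ (by linarith) (by omega))
    -- the sum of the main terms
    have h2 : ‖∑ x ∈ univ.filter (fun x : Fin M → F => On G x), Y x - ∑ b ∈ range (n' + 1), ∑ l ∈ range (ν + 1), (TE w D r ν b l : ℂ) * v (n' - b) l‖ ≤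
        c₃ * C₂ * (W / s) := by
      have h3 : ∑ x ∈ univ.filter (fun x : Fin M → F => On G x), Y x = ∑ b ∈ range (n' + 1), ∑ l ∈ range (ν + 1), (TE w D r ν b l : ℂ) *
          ∑ x ∈ univ.filter (fun x : Fin M → F => On G x ∧ map (ev x) Δ ≠ 0), (((ζ x : ℝ) : ℂ) ^ l * τ (n' - b) x) := by
        have h4 : ∑ x ∈ univ.filter (fun x : Fin M → F => On G x), Y x = ∑ x ∈ univ.filter (fun x : Fin M → F => On G x ∧ map (ev x) Δ ≠ 0), Y x := by
          rw [← filter_filter, sum_filter (fun x : Fin M → F => map (ev x) Δ ≠ 0)]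
          refine sum_congr rfl fun x _ => ?_
          split_ifs with hΔ
          · rfl
          · rw [hY]
            simp only
            rw [if_pos (not_not.1 hΔ)]
        rw [h4]
        have h5 : ∀ x ∈ univ.filter (fun x : Fin M → F => On G x ∧ map (ev x) Δ ≠ 0), Y x =
            ∑ b ∈ range (n' + 1), ∑ l ∈ range (ν + 1), (TE w D r ν b l : ℂ) * (((ζ x : ℝ) : ℂ) ^ l * τ (n' - b) x) := by
          intro x hx
          rw [mem_filter] at hx
          rw [hY]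
          simp only
          rw [if_neg hx.2.2]
        rw [sum_congr rfl h5, sum_comm]
        refine sum_congr rfl fun b _ => ?_
        rw [sum_comm]
        exact sum_congr rfl fun l _ => by rw [mul_sum]
      rw [h3, ← sum_sub_distrib, hc₃, sum_mul, sum_mul]
      refine (norm_sum_le _ _).trans (sum_le_sum fun b hb => ?_)
      rw [mem_range] at hb
      rw [← sum_sub_distrib, sum_mul, sum_mul]
      refine (norm_sum_le _ _).trans (sum_le_sum fun l hl => ?_)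
      rw [mem_range] at hl
      rw [← mul_sub, norm_mul, Complex.norm_natCast, mul_assoc]
      refine mul_le_mul_of_nonneg_left ?_ (Nat.cast_nonneg _)
      rw [hζ]
      exact hv (n' - b) (by omega) l (by omega)
    have h3 : ‖∑ x ∈ univ.filter (fun x : Fin M → F => On G x ∧ ¬ Gen k x), Y x‖ ≤ c₃ * Z₁ * β * (2 * C₃ * (W / s)) := by
      refine (norm_sum_le _ _).trans ((sum_le_sum (g := fun _ => c₃ * Z₁ * β) fun x hx => hYb x (mem_filter.1 hx).2.1).trans ?_)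
      rw [sum_const, nsmul_eq_mul, mul_comm]
      refine mul_le_mul_of_nonneg_left ?_ (by positivity)
      have h4 := card_on_not_gen hε G p C₃ hfib
      rw [← hcardF, ← hs, ← hWd] at h4
      exact h4
    have h4 : ∑ x ∈ univ.filter (fun x : Fin M → F => On G x ∧ Gen k x), Y x = ∑ x ∈ univ.filter (fun x : Fin M → F => On G x), Y x -
        ∑ x ∈ univ.filter (fun x : Fin M → F => On G x ∧ ¬ Gen k x), Y x := by
      rw [eq_sub_iff_add_eq, ← filter_filter, ← filter_filter]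
      exact sum_filter_add_sum_filter_not _ _ _
    have h5 : |∑ x ∈ univ.filter (fun x : Fin M → F => On G x ∧ Gen k x), av (fun u => φ (GG w D r ν n' E f Δ τ x u)) -
        φ (∑ x ∈ univ.filter (fun x : Fin M → F => On G x ∧ Gen k x), Y x)| ≤ ((n' + 1 : ℕ) : ℝ) * β * K * C₃ * (W / s) := by
      rw [map_sum, ← sum_sub_distrib]
      refine (abs_sum_le_sum_abs _ _).trans ?_
      have h5' : ∀ x ∈ univ.filter (fun x : Fin M → F => On G x ∧ Gen k x), |av (fun u => φ (GG w D r ν n' E f Δ τ x u)) - φ (Y x)| ≤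
          ((n' + 1 : ℕ) : ℝ) * β * K / s := fun x hx => h1 x (mem_filter.1 hx).2.1 (mem_filter.1 hx).2.2
      refine (sum_le_sum h5').trans ?_
      rw [sum_const, nsmul_eq_mul]
      have h6 : (((univ.filter (fun x : Fin M → F => On G x ∧ Gen k x)).card : ℕ) : ℝ) ≤ C₃ * W := by
        have h7 := card_on G p C₃ hfib
        rw [← hcardF, ← hWd] at h7
        refine le_trans ?_ h7
        refine Nat.cast_le.2 (card_le_card fun x hx => ?_)
        rw [mem_filter] at hx ⊢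
        exact ⟨mem_univ _, hx.2.1⟩
      calc _ ≤ (C₃ * W) * (((n' + 1 : ℕ) : ℝ) * β * K / s) := mul_le_mul_of_nonneg_right h6 (by positivity)
        _ = _ := by ring
    have h6 : ∑ x ∈ univ.filter (fun x : Fin M → F => On G x ∧ Gen k x), av (fun u => φ (GG w D r ν n' E f Δ τ x u)) -
          φ (∑ b ∈ range (n' + 1), ∑ l ∈ range (ν + 1), (TE w D r ν b l : ℂ) * v (n' - b) l) =
        (∑ x ∈ univ.filter (fun x : Fin M → F => On G x ∧ Gen k x), av (fun u => φ (GG w D r ν n' E f Δ τ x u)) -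
          φ (∑ x ∈ univ.filter (fun x : Fin M → F => On G x ∧ Gen k x), Y x)) +
        (φ (∑ x ∈ univ.filter (fun x : Fin M → F => On G x), Y x - ∑ b ∈ range (n' + 1), ∑ l ∈ range (ν + 1), (TE w D r ν b l : ℂ) * v (n' - b) l) -
          φ (∑ x ∈ univ.filter (fun x : Fin M → F => On G x ∧ ¬ Gen k x), Y x)) := by
      rw [h4, map_sub, map_sub]
      ring
    rw [h6]
    have h7 := (hφ _).trans h2
    have h8 := (hφ _).trans h3
    refine (abs_add_le _ _).trans ?_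
    have h9 := abs_sub (φ (∑ x ∈ univ.filter (fun x : Fin M → F => On G x), Y x - ∑ b ∈ range (n' + 1), ∑ l ∈ range (ν + 1), (TE w D r ν b l : ℂ) * v (n' - b) l))
      (φ (∑ x ∈ univ.filter (fun x : Fin M → F => On G x ∧ ¬ Gen k x), Y x))
    have h10 : (((n' + 1 : ℕ) : ℝ) * β * K * C₃ + c₃ * Z₁ * β * (2 * C₃) + c₃ * C₂) * (W / s) =
        ((n' + 1 : ℕ) : ℝ) * β * K * C₃ * (W / s) + (c₃ * C₂ * (W / s) + c₃ * Z₁ * β * (2 * C₃ * (W / s))) := by ring
    rw [h10]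
    linarith

end Q282UV
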