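import Pool.Agent.Q282.AE.Tur
import Pool.Agent.Q282.OR.Fej

/-!
# Sums of powers of numbers of given absolute value
-/

set_option autoImplicit false
set_option linter.unusedSectionVars false

namespace Q282UV

open Finset

/-- an exponential sum -/
noncomputable def ex (l : List (ℂ × ℂ)) (m : ℕ) : ℂ := (l.map fun p => p.1 * p.2 ^ m).sum

lemma ex_cons (p : ℂ × ℂ) (l : List (ℂ × ℂ)) (m : ℕ) : ex (p :: l) m = p.1 * p.2 ^ m + ex l m := by
  unfold ex
  rw [List.map_cons, List.sum_cons]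

/-- the value of an exponential sum in terms of the following ones -/
lemma back (K : ℕ) : ∀ (l : List (ℂ × ℂ)), l.length = K → (∀ p ∈ l, ‖p.2‖ = 1) → ∀ (δ : ℝ), 0 ≤ δ → ∀ m : ℕ,
    (∀ t, 1 ≤ t → t ≤ K → ‖ex l (m + t)‖ ≤ δ) → ‖ex l m‖ ≤ (2 ^ K - 1) * δ := by
  induction K with
  | zero =>
    intro l hl _ δ _ m _
    rw [List.length_eq_zero_iff] at hl
    subst hl
    unfold ex
    simp
  | succ K ih =>
    intro l hl h1 δ hδ m hm
    obtain ⟨p, l', rfl⟩ : ∃ p l', l = p :: l' := by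
      cases l with
      | nil => simp at hl
      | cons p l' => exact ⟨p, l', rfl⟩
    have hp : ‖p.2‖ = 1 := h1 p List.mem_cons_self
    have hp0 : p.2 ≠ 0 := by
      intro h
      rw [h, norm_zero] at hp
      exact zero_ne_one hp
    obtain ⟨l₂, hl₂⟩ : ∃ l₂ : List (ℂ × ℂ), l₂ = l'.map fun s => (s.1 * (1 - s.2 / p.2), s.2) := ⟨_, rfl⟩
    have h2 : ∀ m : ℕ, ex l₂ m = ex (p :: l') m - ex (p :: l') (m + 1) / p.2 := by
      intro m
      rw [ex_cons, ex_cons, hl₂]
      have h3 : ∀ l' : List (ℂ × ℂ), ex (l'.map fun s => (s.1 * (1 - s.2 / p.2), s.2)) m = ex l' m - ex l' (m + 1) / p.2 := by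
        intro l'
        induction l' with
        | nil => simp [ex]
        | cons s l' ih' =>
          rw [List.map_cons, ex_cons, ex_cons, ex_cons, ih']
          rw [pow_succ]
          field_simp
          ring
      rw [h3, pow_succ]
      field_simp
      ring
    have h3 : ‖ex l₂ m‖ ≤ (2 ^ K - 1) * (2 * δ) := by
      refine ih l₂ ?_ ?_ (2 * δ) (by linarith) m ?_
      · rw [hl₂, List.length_map]
        simpa using hl
      · intro s hs
        rw [hl₂, List.mem_map] at hs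
        obtain ⟨s', hs', rfl⟩ := hs
        exact h1 s' (List.mem_cons_of_mem _ hs')
      · intro t ht1 ht2
        rw [h2]
        refine (norm_sub_le _ _).trans ?_
        rw [norm_div, hp, div_one]
        have h4 := hm t ht1 (by omega)
        have h5 := hm (t + 1) (by omega) (by omega)
        rw [← add_assoc] at h5
        linarith
    have h4 : ex (p :: l') m = ex l₂ m + ex (p :: l') (m + 1) / p.2 := by
      rw [h2]
      ring
    rw [h4]
    refine (norm_add_le _ _).trans ?_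
    rw [norm_div, hp, div_one]
    have h5 := hm 1 le_rfl (by omega)
    rw [pow_succ]
    linarith

/-- the value of an exponential sum in terms of those in a distant window -/
lemma far (K A : ℕ) : ∀ (l : List (ℂ × ℂ)), l.length ≤ K → (∀ p ∈ l, ‖p.2‖ = 1) → ∀ (δ : ℝ), 0 ≤ δ → ∀ m : ℕ,
    (∀ t, A < t → t ≤ A + K → ‖ex l (m + t)‖ ≤ δ) → ‖ex l m‖ ≤ (2 ^ K) ^ (A + 1) * δ := by
  have hK1 : (1 : ℝ) ≤ 2 ^ K := one_le_pow₀ (by norm_num)
  have hback : ∀ (l : List (ℂ × ℂ)), l.length ≤ K → (∀ p ∈ l, ‖p.2‖ = 1) → ∀ (δ : ℝ), 0 ≤ δ → ∀ m : ℕ,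
      (∀ t, 1 ≤ t → t ≤ K → ‖ex l (m + t)‖ ≤ δ) → ‖ex l m‖ ≤ 2 ^ K * δ := by
    intro l hl h1 δ hδ m hm
    refine (back l.length l rfl h1 δ hδ m fun t ht1 ht2 => hm t ht1 (by omega)).trans ?_
    refine mul_le_mul_of_nonneg_right ?_ hδ
    have : (2 : ℝ) ^ l.length ≤ 2 ^ K := pow_le_pow_right₀ (by norm_num) hl
    linarith
  induction A with
  | zero =>
    intro l hl h1 δ hδ m hm
    rw [zero_add, pow_one]
    exact hback l hl h1 δ hδ m fun t ht1 ht2 => hm t (by omega) (by omega)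
  | succ A ih =>
    intro l hl h1 δ hδ m hm
    have h2 : ‖ex l (m + (A + 1))‖ ≤ 2 ^ K * δ := by
      refine hback l hl h1 δ hδ (m + (A + 1)) fun t ht1 ht2 => ?_
      rw [add_assoc]
      exact hm (A + 1 + t) (by omega) (by omega)
    have h3 := ih l hl h1 (2 ^ K * δ) (by positivity) m fun t ht1 ht2 => by
      rcases Nat.lt_or_ge (A + 1) t with h | h
      · refine (hm t h (by omega)).trans ?_
        exact le_mul_of_one_le_left hδ hK1
      · have : t = A + 1 := by omega
        rw [this]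
        exact h2
    refine h3.trans (le_of_eq ?_)
    ring

/-- the difference of the sums of the powers of two multisets, normalised -/
noncomputable def dif (Q : ℝ) (γ P : Multiset ℂ) (m : ℕ) : ℂ :=
  (γ.map fun g => (g / (Q : ℂ)) ^ m).sum - (P.map fun g => (g / (Q : ℂ)) ^ m).sum

lemma dif_ex (Q : ℝ) (γ P : Multiset ℂ) (m h t : ℕ) :
    dif Q γ P (m + h * t) = ex ((γ.toList.map fun g => ((g / (Q : ℂ)) ^ m, (g / (Q : ℂ)) ^ h)) ++
      P.toList.map fun g => (-(g / (Q : ℂ)) ^ m, (g / (Q : ℂ)) ^ h)) t := by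
  unfold dif ex
  rw [List.map_append, List.sum_append, List.map_map, List.map_map, sub_eq_add_neg]
  congr 1
  · conv_lhs => rw [← Multiset.coe_toList γ]
    rw [Multiset.map_coe, Multiset.sum_coe]
    congr 1
    refine List.map_congr_left fun g _ => ?_
    simp only [Function.comp_apply]
    rw [pow_add, pow_mul]
  · conv_lhs => rw [← Multiset.coe_toList P]
    rw [Multiset.map_coe, Multiset.sum_coe, List.sum_neg, List.map_map]
    congr 1
    refine List.map_congr_left fun g _ => ?_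
    simp only [Function.comp_apply]
    rw [pow_add, pow_mul]
    ring

/-- **The values in an arithmetic progression.** -/
theorem turan (B A : ℕ) (Q : ℝ) (hQ : 0 < Q) (P : Multiset ℂ) (hP : ∀ g ∈ P, ‖g‖ = Q) (γ : Multiset ℂ) (hγ : ∀ g ∈ γ, ‖g‖ = Q)
    (hB : γ.card ≤ B) (δ : ℝ) (hδ : 0 ≤ δ) (m h : ℕ) (hw : ∀ t, A < t → t ≤ A + (B + P.card) → ‖dif Q γ P (m + h * t)‖ ≤ δ) :
    ‖dif Q γ P m‖ ≤ (2 ^ (B + P.card)) ^ (A + 1) * δ := by
  obtain ⟨l, hl⟩ : ∃ l : List (ℂ × ℂ), l = (γ.toList.map fun g => ((g / (Q : ℂ)) ^ m, (g / (Q : ℂ)) ^ h)) ++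
      P.toList.map fun g => (-(g / (Q : ℂ)) ^ m, (g / (Q : ℂ)) ^ h) := ⟨_, rfl⟩
  have h1 : ∀ t, dif Q γ P (m + h * t) = ex l t := fun t => by rw [hl]; exact dif_ex Q γ P m h t
  have hn : ∀ g : ℂ, ‖g‖ = Q → ‖g / (Q : ℂ)‖ = 1 := by
    intro g hg
    rw [norm_div, hg, Complex.norm_real, Real.norm_of_nonneg hQ.le, div_self hQ.ne']
  have h2 := far (B + P.card) A l (by
    rw [hl, List.length_append, List.length_map, List.length_map, Multiset.length_toList, Multiset.length_toList]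
    omega) (by
    intro p hp
    rw [hl, List.mem_append, List.mem_map, List.mem_map] at hp
    rcases hp with ⟨g, hg, rfl⟩ | ⟨g, hg, rfl⟩
    · simp only [norm_pow]
      rw [hn g (hγ g (Multiset.mem_toList.1 hg)), one_pow]
    · simp only [norm_pow]
      rw [hn g (hP g (Multiset.mem_toList.1 hg)), one_pow]) δ hδ 0 (by
    intro t ht1 ht2
    rw [zero_add, ← h1]
    exact hw t ht1 ht2)
  rw [← h1, mul_zero, add_zero] at h2
  exact h2

end Q282UV
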